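import Pool.Agent.Y657.NV.Frob

/-!
# DGN1: structure of the Brauer quotient of the projective centre
-/

set_option autoImplicit false
set_option linter.unusedSectionVars false

open scoped Classical

noncomputable section

namespace Pool.Agent.Y657.NV

open Pool.Agent.Y63.AWC (IsIrreducibleCharacter DZ)
open Pool.Agent.Y63.NV
open Pool.Agent.Y930.NV (Cf ind mk_conj mk_out Cf_out cv cv_eq_conv om irr_Cf R ind_cast redC_zero)
open Pool.Agent.Helper884.IC (Irr mem_Irr IsIrrChar)

section quot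

/-- sums of invariant functions over a set with an action which factors through a `p`-group -/
theorem sum_fixedQ {p : ℕ} [Fact p.Prime] {F : Type} [Field F] [CharP F p] {Y α : Type} [Group Y]
    [Finite Y] (X : Subgroup Y) [X.Normal] (hP : IsPGroup p (Y ⧸ X)) [Fintype α]
    (s : Y → α → α) [DecidablePred fun a => ∀ y : Y, s y a = a] (s1 : ∀ a, s 1 a = a)
    (sm : ∀ y z a, s (y * z) a = s y (s z a))
    (hX : ∀ x ∈ X, ∀ a : α, s x a = a) (f : α → F) (hf : ∀ (y : Y) (a : α), f (s y a) = f a) :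
    ∑ a, f a = ∑ a ∈ Finset.univ.filter (fun a => ∀ y : Y, s y a = a), f a := by
  let _ : MulAction Y α := { smul := s, one_smul := s1, mul_smul := sm }
  let φ : Y ⧸ X →* Equiv.Perm α := QuotientGroup.lift X (MulAction.toPermHom Y α) (by
    intro x hx
    ext a
    exact hX x hx a)
  let _ : MulAction (Y ⧸ X) α := MulAction.compHom α φ
  have hs : ∀ (y : Y) (a : α), (y : Y ⧸ X) • a = s y a := fun y a => rfl
  have h := sum_fixed hP (P := Y ⧸ X) f (fun g a => by
    obtain ⟨y, rfl⟩ := QuotientGroup.mk_surjective g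
    rw [hs]
    exact hf y a)
  rw [h]
  refine Finset.sum_congr (Finset.filter_congr fun a _ => ?_) fun _ _ => rfl
  constructor
  · intro h y
    exact h (y : Y ⧸ X)
  · intro h g
    obtain ⟨y, rfl⟩ := QuotientGroup.mk_surjective g
    exact h y

end quot

section act

variable {J : Type} [Group J] [Fintype J]

/-- the bijection of the classes defined by an automorphism -/
def mapE (e : J ≃* J) : ConjClasses J ≃ ConjClasses J where
  toFun := ConjClasses.map e.toMonoidHom
  invFun := ConjClasses.map e.symm.toMonoidHom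
  left_inv C := by
    obtain ⟨x, rfl⟩ := ConjClasses.mk_surjective C
    change ConjClasses.mk (e.symm (e x)) = ConjClasses.mk x
    rw [e.symm_apply_apply]
  right_inv C := by
    obtain ⟨x, rfl⟩ := ConjClasses.mk_surjective C
    change ConjClasses.mk (e (e.symm x)) = ConjClasses.mk x
    rw [e.apply_symm_apply]

theorem mapE_mk (e : J ≃* J) (x : J) : mapE e (ConjClasses.mk x) = ConjClasses.mk (e x) := rfl

theorem mapE_out {A : Type} {f : J → A} (hf : Cf f) (e : J ≃* J) (C : ConjClasses J) :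
    f (mapE e C).out = f (e C.out) := by
  refine Cf_out hf ?_
  rw [← mapE_mk, mk_out]

variable {F : Type} [Field F] (red : integralClosure ℤ ℂ →+* F)

theorem R_act (χ : J → ℂ) (e : J ≃* J) (C : ConjClasses J) :
    R red (fun x => χ (e x)) (ind ℤ C) = R red χ (ind ℤ (mapE e C)) := by
  unfold R
  congr 1
  unfold om
  have e0 : χ (e 1) = χ 1 := by rw [map_one]
  change _ / χ (e 1) = _ / χ 1
  rw [e0]
  congr 1
  refine Fintype.sum_equiv e.toEquiv _ _ fun g => ?_
  have h1 : ind ℤ (mapE e C) (e g) = ind ℤ C g := by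
    unfold ind
    have h2 : ConjClasses.mk (e g) = mapE e C ↔ ConjClasses.mk g = C := by
      rw [← mapE_mk, (mapE e).apply_eq_iff_eq]
    by_cases h3 : ConjClasses.mk g = C
    · rw [if_pos h3, if_pos (h2.mpr h3)]
    · rw [if_neg h3, if_neg (fun h => h3 (h2.mp h))]
  change ((ind ℤ C g : ℤ) : ℂ) * χ (e g) = ((ind ℤ (mapE e C) (e g) : ℤ) : ℂ) * χ (e g)
  rw [h1]

theorem lam_act (χ : J → ℂ) (e : J ≃* J) {f : J → F} (hf : Cf f) (hfe : ∀ x, f (e x) = f x) :
    lam red (fun x => χ (e x)) f = lam red χ f := by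
  unfold lam
  rw [← Equiv.sum_comp (mapE e) (fun C : ConjClasses J => f C.out * R red χ (ind ℤ C))]
  refine Finset.sum_congr rfl fun C _ => ?_
  rw [R_act, mapE_out hf, hfe]

theorem lam_fixed {p : ℕ} [Fact p.Prime] [CharP F p] {Y : Type} [Group Y] [Finite Y]
    (X : Subgroup Y) [X.Normal] (hP : IsPGroup p (Y ⧸ X)) (e : Y →* MulAut J)
    (hX : ∀ x ∈ X, ∀ z : J, ConjClasses.mk (e x z) = ConjClasses.mk z) (ψ : J → ℂ)
    (hψ : ∀ (y : Y) (x : J), ψ (e y x) = ψ x) (u v : J → F) (hv : Cf v)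
    (hve : ∀ (y : Y) (x : J), v (e y x) = v x)
    (huv : ∀ x : J, (∀ y : Y, ConjClasses.mk (e y x) = ConjClasses.mk x) → u x = v x)
    (hu0 : ∀ x : J, (¬ ∀ y : Y, ConjClasses.mk (e y x) = ConjClasses.mk x) → u x = 0) :
    lam red ψ u = lam red ψ v := by
  unfold lam
  have h1 := sum_fixedQ (α := ConjClasses J) X hP (fun y C => mapE (e y : J ≃* J) C)
    (fun C => by
      obtain ⟨x, rfl⟩ := ConjClasses.mk_surjective C
      change ConjClasses.mk (e 1 x) = ConjClasses.mk x
      rw [map_one]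
      rfl)
    (fun y z C => by
      obtain ⟨x, rfl⟩ := ConjClasses.mk_surjective C
      change ConjClasses.mk (e (y * z) x) = ConjClasses.mk (e y (e z x))
      rw [map_mul]
      rfl)
    (fun x hx C => by
      obtain ⟨z, rfl⟩ := ConjClasses.mk_surjective C
      exact hX x hx z)
    (fun C : ConjClasses J => v C.out * R red ψ (ind ℤ C)) (fun y C => by
      have e1 := mapE_out hv (e y : J ≃* J) C
      have e2 := R_act red ψ (e y : J ≃* J) C
      have e3 : (fun x : J => ψ ((e y : J ≃* J) x)) = ψ := funext fun x => hψ y x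
      rw [e3] at e2
      change v (mapE (e y : J ≃* J) C).out * R red ψ (ind ℤ (mapE (e y : J ≃* J) C)) = _
      rw [← e2, e1]
      congr 1
      exact hve y _)
  rw [h1, Finset.sum_filter]
  refine Finset.sum_congr rfl fun C _ => ?_
  have h3 : (∀ y : Y, mapE (e y : J ≃* J) C = C) ↔
      ∀ y : Y, ConjClasses.mk (e y C.out) = ConjClasses.mk C.out := by
    refine forall_congr' fun y => ?_
    rw [mk_out]
    have : ConjClasses.mk (e y C.out) = mapE (e y : J ≃* J) C := by
      rw [← mapE_mk, mk_out]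
    rw [this]
  by_cases hf : ∀ y : Y, mapE (e y : J ≃* J) C = C
  · rw [if_pos hf, huv _ (h3.mp hf)]
  · rw [if_neg hf, hu0 _ (fun h => hf (h3.mpr h)), zero_mul]

end act

section main

variable {p : ℕ} [hp : Fact p.Prime] {F : Type} [Field F] [CharP F p]
  (red : integralClosure ℤ ℂ →+* F) {Y : Type} [Group Y] [Fintype Y] (X : Subgroup Y) [hN : X.Normal]

/-- characters of defect zero -/
abbrev A (p : ℕ) {Y : Type} [Group Y] (X : Subgroup Y) : Type :=
  {χ : X → ℂ // IsIrreducibleCharacter χ ∧ DZ p χ}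

/-- the action on the characters of defect zero -/
def actA (p : ℕ) {Y : Type} [Group Y] (X : Subgroup Y) [X.Normal] (y : Y) (a : A p X) : A p X :=
  ⟨fun x => a.1 (MulAut.conjNormal y⁻¹ x),
    Pool.Agent.Y63.AWC.irr_comp (MulAut.conjNormal y⁻¹ : X ≃* X) a.2.1, by
      obtain ⟨n, h1, h2⟩ := a.2.2
      refine ⟨n, ?_, h2⟩
      rw [← h1]
      change a.1 (MulAut.conjNormal y⁻¹ 1) = a.1 1
      rw [map_one]⟩

theorem actA_one (a : A p X) : actA p X 1 a = a := by
  apply Subtype.ext
  funext x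
  change a.1 (MulAut.conjNormal (1 : Y)⁻¹ x) = a.1 x
  rw [inv_one, map_one]
  rfl

theorem actA_mul (y z : Y) (a : A p X) : actA p X (y * z) a = actA p X y (actA p X z a) := by
  apply Subtype.ext
  funext x
  change a.1 (MulAut.conjNormal (y * z)⁻¹ x) =
    a.1 (MulAut.conjNormal z⁻¹ (MulAut.conjNormal y⁻¹ x))
  rw [mul_inv_rev, map_mul]
  rfl

theorem A_finite : Finite (A p X) := by
  have h : ((Irr X : Finset (X → ℂ)) : Set (X → ℂ)).Finite := Finset.finite_toSet _
  have h2 : {χ : X → ℂ | IsIrreducibleCharacter χ ∧ DZ p χ}.Finite :=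
    h.subset fun χ hχ => mem_Irr.mpr hχ.1
  exact h2.to_subtype

/-- the restriction of a function to `X` -/
def rs (θ : Y → F) : X → F := fun x => θ x

theorem cc_coe (x : X) : cc x = Nat.card ↥(X ⊓ Subgroup.centralizer {(x : Y)}) := by
  unfold cc
  refine Nat.card_congr
    { toFun := fun z => ⟨z.1.1, z.1.2, ?_⟩
      invFun := fun z => ⟨⟨z.1, z.2.1⟩, ?_⟩
      left_inv := fun z => rfl
      right_inv := fun z => rfl }
  · exact Subgroup.mem_centralizer_singleton_iff.mpr
      (congrArg Subtype.val (Subgroup.mem_centralizer_singleton_iff.mp z.2))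
  · exact Subgroup.mem_centralizer_singleton_iff.mpr
      (Subtype.ext (Subgroup.mem_centralizer_singleton_iff.mp z.2.2))

theorem mem_E0 (x : X) : (x : Y) ∈ E0 p X ↔ ¬ p ∣ cc x ∧
    ∀ y : Y, ConjClasses.mk (MulAut.conjNormal y x) = ConjClasses.mk x := by
  rw [cc_coe]
  constructor
  · rintro ⟨-, h2, h3⟩
    refine ⟨h2, fun y => ?_⟩
    obtain ⟨n, hn, h⟩ := h3 y
    rw [eq_comm, ConjClasses.mk_eq_mk_iff_isConj, isConj_iff]
    refine ⟨⟨n, hn⟩, Subtype.ext ?_⟩
    rw [MulAut.conjNormal_apply]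
    exact h.symm
  · rintro ⟨h2, h3⟩
    refine ⟨x.2, h2, fun y => ?_⟩
    have h := h3 y
    rw [eq_comm, ConjClasses.mk_eq_mk_iff_isConj, isConj_iff] at h
    obtain ⟨n, hn⟩ := h
    refine ⟨n, n.2, ?_⟩
    have h4 := congrArg Subtype.val hn
    rw [MulAut.conjNormal_apply] at h4
    exact h4.symm

theorem E0_conj {x : X} (y : Y) (h : (x : Y) ∈ E0 p X) :
    ((MulAut.conjNormal y x : X) : Y) ∈ E0 p X := by
  rw [mem_E0] at h ⊢
  refine ⟨?_, fun z => ?_⟩
  · rw [cc_of_mk (h.2 y)]
    exact h.1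
  · have h1 : MulAut.conjNormal z (MulAut.conjNormal y x) = MulAut.conjNormal (z * y) x := by
      rw [map_mul]
      rfl
    rw [h1, h.2, h.2]

theorem rs_Cf {θ : Y → F} (h : θ ∈ VS (F := F) (E0 p X) ⊤) : Cf (rs X θ) := by
  intro g x
  exact h.2 g trivial x

theorem rs_inv {θ : Y → F} (h : θ ∈ VS (F := F) (E0 p X) ⊤) (y : Y) (x : X) :
    rs X θ (MulAut.conjNormal y x) = rs X θ x := by
  unfold rs
  rw [MulAut.conjNormal_apply]
  exact h.2 y trivial x

theorem rs_zero {θ : Y → F} (h : θ ∈ VS (F := F) (E0 p X) ⊤) (x : X) (hx : p ∣ cc x) :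
    rs X θ x = 0 := by
  refine h.1 x fun h1 => ?_
  rw [mem_E0] at h1
  exact h1.1 hx

theorem conv_rs {f h : Y → F} (hf : ∀ x, x ∉ X → f x = 0) (g : X) :
    conv f h g = cv (rs X f) (rs X h) g := by
  unfold conv cv rs
  rw [finsum_eq_sum_of_fintype]
  have h1 : ∑ y : Y, f y * h (y⁻¹ * g) =
      ∑ y ∈ Finset.univ.filter (fun y => y ∈ X), f y * h (y⁻¹ * g) := by
    rw [Finset.sum_filter]
    refine Finset.sum_congr rfl fun y _ => ?_
    split_ifs with hy
    · rfl
    · rw [hf y hy, zero_mul]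
  rw [h1, Finset.sum_subtype (Finset.univ.filter (fun y => y ∈ X)) (p := fun y => y ∈ X)
    (fun y => by simp)]
  rfl

/-- invariance of a character -/
def Inv (χ : X → ℂ) : Prop := ∀ (y : Y) (x : X), χ (MulAut.conjNormal y x) = χ x

theorem inv_iff {a : A p X} :
    (∀ y : Y, actA p X y a = a) ↔ Inv X a.1 := by
  constructor
  · intro h y x
    have h1 := congrArg (fun b : A p X => b.1 x) (h y⁻¹)
    change a.1 (MulAut.conjNormal (y⁻¹)⁻¹ x) = a.1 x at h1
    rwa [inv_inv] at h1
  · intro h y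
    apply Subtype.ext
    funext x
    exact h y⁻¹ x

/-- the basis of the algebra -/
def Zf (χ : X → ℂ) : Y → F := fun y =>
  if h : y ∈ E0 p X then rr red χ (⟨y, h.1⟩ : X)⁻¹ else 0

theorem Zf_coe (χ : X → ℂ) (x : X) :
    Zf (p := p) red X χ x = if (x : Y) ∈ E0 p X then rr red χ x⁻¹ else 0 := by
  unfold Zf
  split_ifs <;> rfl

theorem rr_inv_inv {χ : X → ℂ} (hχ : Inv X χ) (y : Y) (x : X) :
    rr red χ (MulAut.conjNormal y x)⁻¹ = rr red χ x⁻¹ := by
  unfold rr
  rw [← map_inv, hχ]

theorem Zf_mem {χ : X → ℂ} (hχ : Inv X χ) : Zf (p := p) red X χ ∈ VS (F := F) (E0 p X) ⊤ := by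
  refine ⟨fun x hx => dif_neg hx, fun y _ x => ?_⟩
  by_cases hx : x ∈ X
  · have e1 : y * x * y⁻¹ = ((MulAut.conjNormal y (⟨x, hx⟩ : X) : X) : Y) := by
      rw [MulAut.conjNormal_apply]
    have e2 : x = ((⟨x, hx⟩ : X) : Y) := rfl
    rw [e1, Zf_coe]
    conv_rhs => rw [e2, Zf_coe]
    rw [rr_inv_inv red X hχ]
    by_cases h : ((⟨x, hx⟩ : X) : Y) ∈ E0 p X
    · rw [if_pos h, if_pos (E0_conj X y h)]
    · rw [if_neg h, if_neg]
      intro h1
      apply h
      have h2 := E0_conj X y⁻¹ h1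
      have h3 : MulAut.conjNormal y⁻¹ (MulAut.conjNormal y (⟨x, hx⟩ : X)) = (⟨x, hx⟩ : X) := by
        rw [← MulAut.mul_apply, ← map_mul, inv_mul_cancel, map_one]
        rfl
      rw [h3] at h2
      exact h2
  · have h1 : x ∉ E0 p X := fun h => hx h.1
    have h2 : y * x * y⁻¹ ∉ E0 p X := by
      intro h
      apply hx
      have h3 := hN.conj_mem _ h.1 y⁻¹
      have e : y⁻¹ * (y * x * y⁻¹) * y⁻¹⁻¹ = x := by group
      rwa [e] at h3
    unfold Zf
    rw [dif_neg h1, dif_neg h2]

/-- orthogonality on the invariant classes -/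
theorem lam_Zf (hP : IsPGroup p (Y ⧸ X)) {χ ψ : X → ℂ} (h : IsIrreducibleCharacter χ)
    (hd : DZ p χ) (h' : IsIrreducibleCharacter ψ) (hχ : Inv X χ) (hψ : Inv X ψ) :
    lam red ψ (rs X (Zf (p := p) red X χ)) = if χ = ψ then mF red ψ else 0 := by
  rw [← lam_orth red h h']
  have hcf : Cf (fun g : X => rr red χ g⁻¹) := by
    intro g x
    change redC red (χ (g * x * g⁻¹)⁻¹) = redC red (χ x⁻¹)
    have : (g * x * g⁻¹)⁻¹ = g * x⁻¹ * g⁻¹ := by group
    rw [this, irr_Cf h]
  refine lam_fixed red X hP (MulAut.conjNormal (H := X)) (fun x hx z => ?_) ψ hψ _ _ hcf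
    (fun y x => rr_inv_inv red X hχ y x) (fun x hx => ?_) (fun x hx => ?_)
  · have e : (MulAut.conjNormal x : X ≃* X) z = (⟨x, hx⟩ : X) * z * (⟨x, hx⟩ : X)⁻¹ := by
      apply Subtype.ext
      exact MulAut.conjNormal_apply _ _
    rw [e, mk_conj]
  · have h2 : rs X (Zf (p := p) red X χ) x =
        if (x : Y) ∈ E0 p X then rr red χ (x : X)⁻¹ else 0 := Zf_coe red X χ _
    rw [h2, mem_E0]
    by_cases hc : p ∣ cc x
    · rw [if_neg (fun h => h.1 hc)]
      exact (rr_zero red h hd (by rw [cc_inv]; exact hc)).symm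
    · rw [if_pos ⟨hc, hx⟩]
  · have h2 : rs X (Zf (p := p) red X χ) x =
        if (x : Y) ∈ E0 p X then rr red χ (x : X)⁻¹ else 0 := Zf_coe red X χ _
    rw [h2, if_neg]
    rw [mem_E0]
    exact fun h => hx h.2

/-- the invariant characters of defect zero -/
abbrev IA (p : ℕ) {Y : Type} [Group Y] (X : Subgroup Y) [X.Normal] : Type := {a : A p X // Inv X a.1}

theorem IA_finite : Finite (IA p X) := by
  have := A_finite (p := p) X
  exact Subtype.finite

theorem card_IA : numInvDz p X = Nat.card (IA p X) := by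
  unfold numInvDz
  refine Nat.card_congr
    { toFun := fun χ => ⟨⟨χ.1, χ.2.1, χ.2.2.1⟩, fun y x => χ.2.2.2 y x _
        (MulAut.conjNormal_apply _ _)⟩
      invFun := fun a => ⟨a.1.1, a.1.2.1, a.1.2.2, fun y x z hz => by
        have h := a.2 y x
        have e : (MulAut.conjNormal y x : X) = z := Subtype.ext (by
          rw [MulAut.conjNormal_apply, hz])
        rw [e] at h
        exact h⟩
      left_inv := fun a => rfl
      right_inv := fun a => rfl }

/-- the product in terms of the basis -/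
theorem prod_eq (hP : IsPGroup p (Y ⧸ X)) [Fintype (IA p X)] {f h : Y → F}
    (hf : f ∈ VS (F := F) (E0 p X) ⊤) (hh : h ∈ VS (F := F) (E0 p X) ⊤) :
    prod0 p X f h = ∑ a : IA p X, ((mF red a.1.1)⁻¹ * lam red a.1.1 (rs X f) *
      lam red a.1.1 (rs X h)) • Zf (p := p) red X a.1.1 := by
  have hfin := A_finite (p := p) X
  have : Fintype (A p X) := Fintype.ofFinite _
  funext g
  unfold prod0
  rw [Finset.sum_apply]
  by_cases hg : g ∈ E0 p X
  · rw [if_pos hg]
    have hgX : g ∈ X := hg.1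
    have e0 : g = ((⟨g, hgX⟩ : X) : Y) := rfl
    have e1 : conv f h g = cv (rs X f) (rs X h) (⟨g, hgX⟩ : X) := by
      rw [← conv_rs X (fun x hx => hf.1 x fun h => hx h.1)]
    rw [e1, cv_dz red (p := p) (rs_Cf X hf) (rs_Cf X hh) (fun x hx => rs_zero X hf x hx)
      (fun x hx => rs_zero X hh x hx)]
    rw [Finset.sum_subtype ((Irr X).filter (fun χ => DZ p χ))
      (p := fun χ => IsIrreducibleCharacter χ ∧ DZ p χ) (fun χ => by
        rw [Finset.mem_filter]
        exact and_congr_left fun _ => mem_Irr) (fun χ => (mF red χ)⁻¹ * lam red χ (rs X f) *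
          lam red χ (rs X h) * rr red χ (⟨g, hgX⟩ : X)⁻¹)]
    have h1 := sum_fixedQ (α := A p X) X hP (actA p X) (actA_one X) (actA_mul X)
      (fun x hx a => by
        apply Subtype.ext
        funext z
        change a.1 (MulAut.conjNormal x⁻¹ z) = a.1 z
        have e : (MulAut.conjNormal x⁻¹ : X ≃* X) z = (⟨x, hx⟩ : X)⁻¹ * z * ((⟨x, hx⟩ : X)⁻¹)⁻¹ := by
          apply Subtype.ext
          exact MulAut.conjNormal_apply _ _
        rw [e, irr_Cf a.2.1])
      (fun a : A p X => (mF red a.1)⁻¹ * lam red a.1 (rs X f) *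
          lam red a.1 (rs X h) * rr red a.1 (⟨g, hgX⟩ : X)⁻¹) (fun y a => by
        change (mF red (fun x => a.1 (MulAut.conjNormal y⁻¹ x)))⁻¹ *
          lam red (fun x => a.1 (MulAut.conjNormal y⁻¹ x)) (rs X f) *
          lam red (fun x => a.1 (MulAut.conjNormal y⁻¹ x)) (rs X h) *
          rr red (fun x => a.1 (MulAut.conjNormal y⁻¹ x)) (⟨g, hgX⟩ : X)⁻¹ = _
        have e2 : mF red (fun x => a.1 (MulAut.conjNormal y⁻¹ x)) = mF red a.1 := by
          have e0 : a.1 ((MulAut.conjNormal y⁻¹ : X ≃* X) 1) = a.1 1 := by rw [map_one]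
          unfold mF mm
          change redC red (_ / a.1 ((MulAut.conjNormal y⁻¹ : X ≃* X) 1)) = _
          rw [e0]
        have e3 := lam_act red a.1 (MulAut.conjNormal y⁻¹ : X ≃* X) (rs_Cf X hf)
          (fun x => rs_inv X hf _ x)
        have e4 := lam_act red a.1 (MulAut.conjNormal y⁻¹ : X ≃* X) (rs_Cf X hh)
          (fun x => rs_inv X hh _ x)
        have e5 : rr red (fun x => a.1 (MulAut.conjNormal y⁻¹ x)) (⟨g, hgX⟩ : X)⁻¹ =
            rr red a.1 (⟨g, hgX⟩ : X)⁻¹ := by
          unfold rr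
          congr 1
          have h5 : ((⟨g, hgX⟩ : X) : Y) ∈ E0 p X := hg
          rw [mem_E0] at h5
          have h6 := h5.2 y⁻¹
          rw [eq_comm, ConjClasses.mk_eq_mk_iff_isConj, isConj_iff] at h6
          obtain ⟨c, hc⟩ := h6
          change a.1 ((MulAut.conjNormal y⁻¹ : X ≃* X) (⟨g, hgX⟩ : X)⁻¹) = _
          rw [map_inv (MulAut.conjNormal y⁻¹ : X ≃* X), ← hc]
          have : (c * (⟨g, hgX⟩ : X) * c⁻¹)⁻¹ = c * (⟨g, hgX⟩ : X)⁻¹ * c⁻¹ := by group
          rw [this, irr_Cf a.2.1]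
        rw [e2, e3, e4, e5])
    have h2 : ∑ x : {χ : X → ℂ // IsIrreducibleCharacter χ ∧ DZ p χ},
        (mF red x.1)⁻¹ * lam red x.1 (rs X f) * lam red x.1 (rs X h) *
          rr red x.1 (⟨g, hgX⟩ : X)⁻¹ = ∑ a : A p X, (mF red a.1)⁻¹ * lam red a.1 (rs X f) *
          lam red a.1 (rs X h) * rr red a.1 (⟨g, hgX⟩ : X)⁻¹ := rfl
    rw [h2, h1]
    refine (Finset.sum_subtype (F := ‹Fintype (IA p X)›) _ (p := fun a : A p X => Inv X a.1)
      (fun a => ?_) _).trans ?_
    · rw [Finset.mem_filter]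
      constructor
      · rintro ⟨-, h⟩
        exact (inv_iff X).mp h
      · intro h
        exact ⟨Finset.mem_univ _, (inv_iff X).mpr h⟩
    refine Finset.sum_congr rfl fun a _ => ?_
    rw [Pi.smul_apply, smul_eq_mul]
    congr 1
    unfold Zf
    rw [dif_pos hg]
  · rw [if_neg hg]
    symm
    refine Finset.sum_eq_zero fun a _ => ?_
    rw [Pi.smul_apply]
    unfold Zf
    rw [dif_neg hg, smul_zero]

theorem lam_smul (χ : X → ℂ) (c : F) (θ : X → F) :
    lam red χ (fun x => c * θ x) = c * lam red χ θ := by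
  unfold lam
  rw [Finset.mul_sum]
  exact Finset.sum_congr rfl fun C _ => by ring

theorem lam_sum (χ : X → ℂ) {ι : Type} (s : Finset ι) (θ : ι → X → F) :
    lam red χ (fun x => ∑ i ∈ s, θ i x) = ∑ i ∈ s, lam red χ (θ i) := by
  unfold lam
  rw [Finset.sum_comm]
  exact Finset.sum_congr rfl fun C _ => by rw [Finset.sum_mul]

include red in
theorem main (hP : IsPGroup p (Y ⧸ X)) : numInvDz p X = dzd p F X := by
  have hfin := IA_finite (p := p) X
  have : Fintype (IA p X) := Fintype.ofFinite _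
  have horth : ∀ a b : IA p X, lam red b.1.1 (rs X (Zf (p := p) red X a.1.1)) =
      if a = b then mF red b.1.1 else 0 := by
    intro a b
    rw [lam_Zf red X hP a.1.2.1 a.1.2.2 b.1.2.1 a.2 b.2]
    by_cases h : a = b
    · subst h
      rw [if_pos rfl, if_pos rfl]
    · rw [if_neg h, if_neg (fun h1 => h (Subtype.ext (Subtype.ext h1)))]
  have hne : ∀ a : IA p X, mF red a.1.1 ≠ 0 := fun a => mF_ne red a.1.2.1 a.1.2.2
  have hli : LinearIndependent F (fun a : IA p X => Zf (p := p) red X a.1.1) := by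
    rw [Fintype.linearIndependent_iff]
    intro c hc b
    have h1 : lam red b.1.1 (rs X (∑ a : IA p X, c a • Zf (p := p) red X a.1.1)) = 0 := by
      rw [hc]
      unfold lam rs
      refine Finset.sum_eq_zero fun C _ => ?_
      rw [Pi.zero_apply, zero_mul]
    have h2 : rs X (∑ a : IA p X, c a • Zf (p := p) red X a.1.1) =
        fun x => ∑ a : IA p X, (fun x => c a * rs X (Zf (p := p) red X a.1.1) x) x := by
      funext x
      unfold rs
      rw [Finset.sum_apply]
      rfl
    rw [h2, lam_sum red X] at h1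
    simp_rw [lam_smul red X, horth] at h1
    rw [Finset.sum_eq_single b] at h1
    · rw [if_pos rfl] at h1
      exact (mul_eq_zero.mp h1).resolve_right (hne b)
    · intro a _ hab
      rw [if_neg hab, mul_zero]
    · intro h
      exact absurd (Finset.mem_univ _) h
  have hspan : Submodule.span F {h : Y → F | ∃ f ∈ VS (F := F) (E0 p X) ⊤,
      ∃ g ∈ VS (F := F) (E0 p X) ⊤, h = prod0 p X f g} =
      Submodule.span F (Set.range fun a : IA p X => Zf (p := p) red X a.1.1) := by
    apply le_antisymm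
    · rw [Submodule.span_le]
      rintro _ ⟨f, hf, g, hg, rfl⟩
      rw [prod_eq red X hP hf hg]
      refine Submodule.sum_mem _ fun a _ => Submodule.smul_mem _ _ ?_
      exact Submodule.subset_span ⟨a, rfl⟩
    · rw [Submodule.span_le]
      rintro _ ⟨a, rfl⟩
      have h1 := prod_eq red X hP (Zf_mem (p := p) red X a.2) (Zf_mem (p := p) red X a.2)
      have h2 : prod0 p X (Zf (p := p) red X a.1.1) (Zf (p := p) red X a.1.1) =
          mF red a.1.1 • Zf (p := p) red X a.1.1 := by
        rw [h1, Finset.sum_eq_single a]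
        · rw [horth, if_pos rfl]
          congr 1
          have := hne a
          field_simp
        · intro b _ hb
          rw [horth, if_neg (fun h => hb h.symm), mul_zero, zero_smul]
        · intro h
          exact absurd (Finset.mem_univ _) h
      have h3 : Zf (p := p) red X a.1.1 = (mF red a.1.1)⁻¹ •
          prod0 p X (Zf (p := p) red X a.1.1) (Zf (p := p) red X a.1.1) := by
        rw [h2, smul_smul, inv_mul_cancel₀ (hne a), one_smul]
      change Zf (p := p) red X a.1.1 ∈ _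
      rw [h3]
      refine Submodule.smul_mem _ _ (Submodule.subset_span ?_)
      exact ⟨_, Zf_mem (p := p) red X a.2, _, Zf_mem (p := p) red X a.2, rfl⟩
  unfold dzd
  rw [hspan, finrank_span_eq_card hli, card_IA, Nat.card_eq_fintype_card]

end main

/-- **DGN1** -/
theorem dgn1 : S_DGN1 := by
  intro p _ F _ _ red Y _ _ X _ hP
  have : Fintype Y := Fintype.ofFinite Y
  exact main red X hP

end Pool.Agent.Y657.NV
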