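import Pool.Agent.Y63.NV.Stm5
import Pool.Agent.Y63.NV.Wblk930
import Pool.Agent.Y930.NV.Cen

/-!
# The induced blocks of the characters of the stabilisers of chains of `p`-subgroups are defined

Job NV5-KBLK of helper63. The computation of the product at the end follows
`Pool/Agent/Y63/NV/Wblk930.lean` of helper930.
-/

set_option autoImplicit false
set_option linter.unusedSectionVars false

open scoped Classical

noncomputable section

namespace Pool.Agent.Y657.NV

open Pool.Agent.Y63.NV
open Pool.Agent.Y63.AWC (IsIrreducibleCharacter)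
open Pool.Agent.Y63.KR (IsPChain chainStabilizer)

section conv

variable {F : Type} [Field F] {N : Type} [Group N] [Fintype N]

theorem conv_eq (f g : N → F) (x : N) : conv f g x = ∑ y : N, f y * g (y⁻¹ * x) := by
  unfold conv
  rw [finsum_eq_sum_of_fintype]

/-- Left convolution. -/
def cl (f : N → F) : (N → F) →ₗ[F] (N → F) where
  toFun g := fun x => ∑ y : N, f y * g (y⁻¹ * x)
  map_add' a b := by
    funext x
    show ∑ y : N, f y * (a (y⁻¹ * x) + b (y⁻¹ * x)) =
      ∑ y : N, f y * a (y⁻¹ * x) + ∑ y : N, f y * b (y⁻¹ * x)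
    simp only [mul_add, Finset.sum_add_distrib]
  map_smul' c a := by
    funext x
    show ∑ y : N, f y * (c * a (y⁻¹ * x)) = c * ∑ y : N, f y * a (y⁻¹ * x)
    rw [Finset.mul_sum]
    exact Finset.sum_congr rfl fun y _ => by ring

theorem cl_apply (f g : N → F) (x : N) : cl f g x = ∑ y : N, f y * g (y⁻¹ * x) := rfl

theorem single_class : IsClassFun (Pi.single 1 1 : N → F) := by
  intro g x
  by_cases hx : x = 1
  · subst hx
    have e : g * 1 * g⁻¹ = 1 := by group
    rw [e]
  · have e : g * x * g⁻¹ ≠ 1 := by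
      intro h
      exact hx (conj_eq_one_iff.1 h)
    rw [Pi.single_eq_of_ne hx, Pi.single_eq_of_ne e]

/-- The value of a block at a central element is an eigenvalue of the multiplication by it. -/
theorem exists_eig (B : (N → F) → F) (hB : IsBlock B) (z : N → F) (hz : IsClassFun z) :
    ∃ v : N → F, v ≠ 0 ∧ ∀ x, ∑ y : N, z y * v (y⁻¹ * x) = B z * v x := by
  by_contra hcon
  push Not at hcon
  have hδ : IsClassFun (Pi.single 1 1 : N → F) := single_class
  have hsm : IsClassFun ((-(B z)) • (Pi.single 1 1 : N → F)) := by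
    intro g x
    show -(B z) * (Pi.single 1 1 : N → F) (g * x * g⁻¹) = -(B z) * (Pi.single 1 1 : N → F) x
    rw [hδ g x]
  obtain ⟨k, hk⟩ : ∃ k : N → F, k = z + (-(B z)) • (Pi.single 1 1 : N → F) := ⟨_, rfl⟩
  have hkc : IsClassFun k := by
    intro g x
    rw [hk]
    show z (g * x * g⁻¹) + ((-(B z)) • (Pi.single 1 1 : N → F)) (g * x * g⁻¹) =
      z x + ((-(B z)) • (Pi.single 1 1 : N → F)) x
    rw [hz g x, hsm g x]
  have hBk : B k = 0 := by
    rw [hk, hB.add _ _ hz hsm, hB.smul _ _ hδ, hB.one]
    ring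
  have hkx : ∀ (v : N → F) (x : N), cl k v x = (∑ y : N, z y * v (y⁻¹ * x)) - B z * v x := by
    intro v x
    rw [cl_apply]
    have e1 : ∀ y : N, k y * v (y⁻¹ * x) = z y * v (y⁻¹ * x) -
        (if y = 1 then B z * v x else 0) := by
      intro y
      rw [hk]
      show (z y + -(B z) * (Pi.single 1 1 : N → F) y) * v (y⁻¹ * x) = _
      by_cases hy : y = 1
      · subst hy
        rw [if_pos rfl, Pi.single_eq_same, inv_one, one_mul]
        ring
      · rw [if_neg hy, Pi.single_eq_of_ne hy]
        ring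
    rw [Finset.sum_congr rfl fun y _ => e1 y, Finset.sum_sub_distrib, Finset.sum_ite_eq',
      if_pos (Finset.mem_univ _)]
  have hinj : Function.Injective (cl k) := by
    rw [← LinearMap.ker_eq_bot, LinearMap.ker_eq_bot']
    intro v hv
    by_contra hv0
    obtain ⟨x, hx⟩ := hcon v hv0
    apply hx
    have e := congrFun hv x
    rw [hkx] at e
    exact sub_eq_zero.1 e
  have hsurj : Function.Surjective (cl k) := LinearMap.injective_iff_surjective.1 hinj
  obtain ⟨v, hv⟩ := hsurj (Pi.single 1 1)
  have hvc : IsClassFun v := by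
    intro g
    have h1 : cl k (fun x => v (g * x * g⁻¹)) = cl k v := by
      rw [hv]
      funext x
      have h2 := congrFun hv (g * x * g⁻¹)
      rw [← hδ g x, ← h2, cl_apply, cl_apply]
      refine Fintype.sum_equiv (MulAut.conj g).toEquiv _ _ fun y => ?_
      have e1 : (MulAut.conj g).toEquiv y = g * y * g⁻¹ := by simp
      have e2 : g * (y⁻¹ * x) * g⁻¹ = (g * y * g⁻¹)⁻¹ * (g * x * g⁻¹) := by group
      rw [e1, hkc g y, e2]
    intro x
    exact congrFun (hinj h1) x
  have hBv : B k * B v = 1 := by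
    rw [← hB.mul _ _ hkc hvc]
    have e : conv k v = (Pi.single 1 1 : N → F) := by
      rw [← hv]
      funext x
      exact conv_eq k v x
    rw [e, hB.one]
  rw [hBk, zero_mul] at hBv
  exact zero_ne_one hBv

end conv

section fix

variable {p : ℕ} [hp : Fact p.Prime] {F : Type} [Field F] [CharP F p] {G : Type} [Group G]

/-- A finite `p`-group fixes a nonzero vector of every nonzero invariant space. -/
theorem exists_fix [Fintype G] (T : Subgroup G) (hT : IsPGroup p T) (W : Submodule F (G → F))
    (hWt : ∀ a ∈ W, ∀ t ∈ T, (fun x => a (t⁻¹ * x)) ∈ W) (v : G → F) (hv : v ∈ W) (hv0 : v ≠ 0) :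
    ∃ w ∈ W, w ≠ 0 ∧ ∀ t ∈ T, ∀ x, w (t * x) = w x := by
  have hfT : Fintype T := Fintype.ofFinite T
  have hfp : Finite (ZMod p) := by
    have : NeZero p := ⟨hp.out.ne_zero⟩
    exact inferInstance
  let φ : (T → ZMod p) →+ (G → F) :=
    { toFun := fun n x => ∑ t : T, (ZMod.castHom (dvd_refl p) F (n t)) * v ((t : G)⁻¹ * x)
      map_zero' := by
        funext x
        show ∑ t : T, (ZMod.castHom (dvd_refl p) F 0) * v ((t : G)⁻¹ * x) = 0
        rw [map_zero]
        simp
      map_add' := by
        intro a b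
        funext x
        show ∑ t : T, (ZMod.castHom (dvd_refl p) F (a t + b t)) * v ((t : G)⁻¹ * x) =
          ∑ t : T, (ZMod.castHom (dvd_refl p) F (a t)) * v ((t : G)⁻¹ * x) +
          ∑ t : T, (ZMod.castHom (dvd_refl p) F (b t)) * v ((t : G)⁻¹ * x)
        rw [← Finset.sum_add_distrib]
        exact Finset.sum_congr rfl fun t _ => by rw [map_add, add_mul] }
  have hφ : ∀ (n : T → ZMod p) (x : G), φ n x =
      ∑ t : T, (ZMod.castHom (dvd_refl p) F (n t)) * v ((t : G)⁻¹ * x) := fun n x => rfl
  have htr : ∀ (s : T) (n : T → ZMod p),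
      (fun x => φ n ((s : G)⁻¹ * x)) = φ (fun t => n (s⁻¹ * t)) := by
    intro s n
    funext x
    rw [hφ, hφ]
    refine Fintype.sum_equiv (Equiv.mulLeft s) _ _ fun t => ?_
    rw [Equiv.coe_mulLeft, inv_mul_cancel_left, Subgroup.coe_mul, mul_inv_rev, mul_assoc]
  have hfin : Finite φ.range := Set.finite_range φ
  have hclosed : ∀ (s : T) (a : φ.range), (fun x => a.1 ((s : G)⁻¹ * x)) ∈ φ.range := by
    rintro s ⟨a, n, rfl⟩
    exact ⟨_, (htr s n).symm⟩
  let _ : MulAction T φ.range :=
    { smul := fun s a => ⟨fun x => a.1 ((s : G)⁻¹ * x), hclosed s a⟩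
      one_smul := by
        intro a
        apply Subtype.ext
        funext x
        show a.1 (((1 : T) : G)⁻¹ * x) = a.1 x
        rw [Subgroup.coe_one, inv_one, one_mul]
      mul_smul := by
        intro s t a
        apply Subtype.ext
        funext x
        show a.1 (((s * t : T) : G)⁻¹ * x) = a.1 ((t : G)⁻¹ * ((s : G)⁻¹ * x))
        rw [Subgroup.coe_mul, mul_inv_rev, mul_assoc] }
  have hact : ∀ (s : T) (a : φ.range) (x : G), (s • a).1 x = a.1 ((s : G)⁻¹ * x) :=
    fun s a x => rfl
  have hvr : v ∈ φ.range := by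
    refine ⟨Pi.single 1 1, ?_⟩
    funext x
    rw [hφ, Finset.sum_eq_single (1 : T)]
    · rw [Pi.single_eq_same, map_one, one_mul, Subgroup.coe_one, inv_one, one_mul]
    · intro t _ ht
      rw [Pi.single_eq_of_ne ht, map_zero, zero_mul]
    · intro h
      exact absurd (Finset.mem_univ _) h
  have hdvd : p ∣ Nat.card φ.range := by
    have hord : addOrderOf (⟨v, hvr⟩ : φ.range) = p := by
      apply addOrderOf_eq_prime
      · apply Subtype.ext
        funext x
        show (p • v) x = 0
        rw [Pi.smul_apply, nsmul_eq_mul, CharP.cast_eq_zero, zero_mul]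
      · intro h
        exact hv0 (congrArg Subtype.val h)
    exact (dvd_of_eq hord.symm).trans (addOrderOf_dvd_natCard _)
  obtain ⟨b, hb, hb0⟩ := hT.exists_fixed_point_of_prime_dvd_card_of_fixed_point φ.range hdvd
    (a := 0) (by
      intro s
      apply Subtype.ext
      funext x
      rfl)
  refine ⟨b.1, ?_, ?_, ?_⟩
  · obtain ⟨n, hn⟩ := b.2
    rw [← hn]
    have e : φ n = ∑ t : T, (ZMod.castHom (dvd_refl p) F (n t)) • (fun x => v ((t : G)⁻¹ * x)) := by
      funext x
      rw [hφ, Finset.sum_apply]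
      rfl
    rw [e]
    exact W.sum_mem fun t _ => W.smul_mem _ (hWt v hv t t.2)
  · intro h
    apply hb0
    apply Subtype.ext
    rw [h]
    rfl
  · intro t ht x
    have e := hb ⟨t, ht⟩⁻¹
    have e2 := congrFun (congrArg Subtype.val e) x
    rw [hact] at e2
    rw [Subgroup.coe_inv, inv_inv] at e2
    exact e2

/-- A block of `H` vanishes at the functions which are invariant under a `p`-group `T` normalised
by `H`, and vanish at the points centralised by `T`. -/
theorem lam_zero [Finite G] (H T : Subgroup G) (hT : IsPGroup p T)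
    (hHT : ∀ h ∈ H, ∀ t ∈ T, h * t * h⁻¹ ∈ T)
    (B : (H → F) → F) (hB : IsBlock B) (g : G → F) (h1 : ∀ x, x ∉ H → g x = 0)
    (h2 : ∀ h ∈ H, ∀ x, g (h * x * h⁻¹) = g x) (h3 : ∀ t ∈ T, ∀ x, g (t * x * t⁻¹) = g x)
    (h4 : ∀ x, (∀ t ∈ T, t * x = x * t) → g x = 0) : B (fun x : H => g x) = 0 := by
  have hfG : Fintype G := Fintype.ofFinite G
  have hfH : Fintype H := Fintype.ofFinite H
  have hz : IsClassFun (fun x : H => g x) := fun a x => h2 a a.2 x
  obtain ⟨v, hv0, hv⟩ := exists_eig B hB _ hz
  obtain ⟨c, hc⟩ : ∃ c : F, c = B (fun x : H => g x) := ⟨_, rfl⟩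
  rw [← hc] at hv ⊢
  by_contra hc0
  obtain ⟨V, hVdef⟩ : ∃ V : G → F, V = fun x => if h : x ∈ H then v ⟨x, h⟩ else 0 := ⟨_, rfl⟩
  have hVin : ∀ x (h : x ∈ H), V x = v ⟨x, h⟩ := by
    intro x h
    rw [hVdef]
    exact dif_pos h
  have hVout : ∀ x, x ∉ H → V x = 0 := by
    intro x h
    rw [hVdef]
    exact dif_neg h
  have hV0 : V ≠ 0 := by
    intro h
    apply hv0
    funext x
    have e := congrFun h (x : G)
    rw [hVin _ x.2] at e
    exact e
  have hV : ∀ x, ∑ y : G, g y * V (y⁻¹ * x) = c * V x := by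
    intro x
    by_cases hx : x ∈ H
    · have e := hv ⟨x, hx⟩
      rw [hVin x hx, ← e]
      have e2 : ∑ y : G, g y * V (y⁻¹ * x) =
          ∑ y ∈ Finset.univ.filter (fun y : G => y ∈ H), g y * V (y⁻¹ * x) := by
        symm
        apply Finset.sum_subset (Finset.filter_subset _ _)
        intro y _ hy
        have hyH : y ∉ H := fun h => hy (Finset.mem_filter.2 ⟨Finset.mem_univ _, h⟩)
        rw [h1 y hyH, zero_mul]
      rw [e2]
      symm
      refine Finset.sum_bij (fun y _ => (y : G)) ?_ ?_ ?_ ?_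
      · intro y _
        exact Finset.mem_filter.2 ⟨Finset.mem_univ _, y.2⟩
      · intro a _ b _ hab
        exact Subtype.ext hab
      · intro b hb
        exact ⟨⟨b, (Finset.mem_filter.1 hb).2⟩, Finset.mem_univ _, rfl⟩
      · intro y _
        have hyx : (y : G)⁻¹ * x ∈ H := H.mul_mem (H.inv_mem y.2) hx
        rw [hVin _ hyx]
        rfl
    · rw [hVout x hx, mul_zero]
      apply Finset.sum_eq_zero
      intro y _
      by_cases hy : y ∈ H
      · rw [hVout, mul_zero]
        intro h
        apply hx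
        have e := H.mul_mem hy h
        rwa [mul_inv_cancel_left] at e
      · rw [h1 y hy, zero_mul]
  let W : Submodule F (G → F) :=
    { carrier := {w | ∀ x, ∑ y : G, g y * w (y⁻¹ * x) = c * w x}
      add_mem' := by
        intro a b ha hb x
        show ∑ y : G, g y * (a (y⁻¹ * x) + b (y⁻¹ * x)) = c * (a x + b x)
        rw [mul_add, ← ha x, ← hb x, ← Finset.sum_add_distrib]
        exact Finset.sum_congr rfl fun y _ => mul_add _ _ _
      zero_mem' := by
        intro x
        show ∑ y : G, g y * 0 = c * 0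
        simp
      smul_mem' := by
        intro r a ha x
        show ∑ y : G, g y * (r * a (y⁻¹ * x)) = c * (r * a x)
        have e : c * (r * a x) = r * (c * a x) := by ring
        rw [e, ← ha x, Finset.mul_sum]
        exact Finset.sum_congr rfl fun y _ => by ring }
  have hWt : ∀ a ∈ W, ∀ t ∈ T, (fun x => a (t⁻¹ * x)) ∈ W := by
    intro a ha t ht x
    show ∑ y : G, g y * a (t⁻¹ * (y⁻¹ * x)) = c * a (t⁻¹ * x)
    rw [← ha (t⁻¹ * x)]
    symm
    refine Fintype.sum_equiv (MulAut.conj t).toEquiv _ _ fun y => ?_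
    have e1 : (MulAut.conj t).toEquiv y = t * y * t⁻¹ := by simp
    have e2 : y⁻¹ * (t⁻¹ * x) = t⁻¹ * ((t * y * t⁻¹)⁻¹ * x) := by group
    rw [e1, h3 t ht, e2]
  obtain ⟨w, hwW, hw0, hwt⟩ := exists_fix T hT W hWt V hV hV0
  apply hw0
  funext x
  have e := hwW x
  let _ : MulAction T G := MulAction.compHom G (MulAut.conj.comp T.subtype)
  have hact : ∀ (q : T) (y : G), q • y = (q : G) * y * (q : G)⁻¹ := fun q y => rfl
  have hinv : ∀ (q : T) (y : G), g (q • y) * w ((q • y)⁻¹ * x) = g y * w (y⁻¹ * x) := by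
    intro q y
    rw [hact, h3 q q.2]
    by_cases hy : y ∈ H
    · have e3 : ((q : G) * y * (q : G)⁻¹)⁻¹ * x =
          q * ((y⁻¹ * (q : G)⁻¹ * y) * (y⁻¹ * x)) := by group
      have e4 : y⁻¹ * (q : G)⁻¹ * y ∈ T := by
        have h := hHT y⁻¹ (H.inv_mem hy) (q : G)⁻¹ (T.inv_mem q.2)
        rwa [inv_inv] at h
      rw [e3, hwt q q.2, hwt _ e4]
    · rw [h1 y hy, zero_mul, zero_mul]
  have e2 : ∑ y : G, g y * w (y⁻¹ * x) = 0 := by
    rw [B930.sum_fixed (p := p) (Q := T) (Y := G) hT (fun y => g y * w (y⁻¹ * x)) hinv]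
    apply Finset.sum_eq_zero
    intro y hy
    have hy4 : g y = 0 := by
      apply h4 y
      intro t ht
      have h5 := (B930.mem_fx _).1 hy ⟨t, ht⟩
      rw [hact] at h5
      exact mul_inv_eq_iff_eq_mul.1 h5
    rw [hy4, zero_mul]
  rw [e2] at e
  rcases mul_eq_zero.1 e.symm with h | h
  · exact absurd h hc0
  · exact h

theorem cent_conj (T : Subgroup G) (k x : G) (hk : k ∈ Subgroup.normalizer (T : Set G)) :
    k * x * k⁻¹ ∈ Subgroup.centralizer (T : Set G) ↔ x ∈ Subgroup.centralizer (T : Set G) := by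
  have main : ∀ k : G, k ∈ Subgroup.normalizer (T : Set G) → ∀ x : G,
      x ∈ Subgroup.centralizer (T : Set G) → k * x * k⁻¹ ∈ Subgroup.centralizer (T : Set G) := by
    intro k hk x hx
    rw [Subgroup.mem_centralizer_iff] at hx ⊢
    intro q hq
    have h3 := hx (k⁻¹ * q * k) (by
      have h4 := (Subgroup.mem_normalizer_iff.1 (Subgroup.inv_mem _ hk) q).1 hq
      rwa [inv_inv] at h4)
    have e1 : q * (k * x * k⁻¹) = k * (k⁻¹ * q * k * x) * k⁻¹ := by group
    have e2 : k * x * k⁻¹ * q = k * (x * (k⁻¹ * q * k)) * k⁻¹ := by group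
    rw [e1, e2, h3]
  constructor
  · intro h
    have h5 := main k⁻¹ (Subgroup.inv_mem _ hk) _ h
    have e : k⁻¹ * (k * x * k⁻¹) * k⁻¹⁻¹ = x := by group
    rwa [e] at h5
  · exact main k hk x

theorem cut_conj (f : G → F) (hf : IsClassFun f) (L T : Subgroup G) (k x : G) (hkL : k ∈ L)
    (hk : k ∈ Subgroup.normalizer (T : Set G)) :
    cut f (L ⊓ Subgroup.centralizer (T : Set G)) (k * x * k⁻¹) =
      cut f (L ⊓ Subgroup.centralizer (T : Set G)) x := by
  have e1 : k * x * k⁻¹ ∈ L ↔ x ∈ L := by
    constructor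
    · intro h
      have h2 := L.mul_mem (L.mul_mem (L.inv_mem hkL) h) hkL
      have e : k⁻¹ * (k * x * k⁻¹) * k = x := by group
      rwa [e] at h2
    · intro h
      exact L.mul_mem (L.mul_mem hkL h) (L.inv_mem hkL)
  have e2 : k * x * k⁻¹ ∈ L ⊓ Subgroup.centralizer (T : Set G) ↔
      x ∈ L ⊓ Subgroup.centralizer (T : Set G) := by
    rw [Subgroup.mem_inf, Subgroup.mem_inf, e1, cent_conj T k x hk]
  unfold cut
  by_cases h : x ∈ L ⊓ Subgroup.centralizer (T : Set G)
  · rw [if_pos h, if_pos (e2.2 h), hf k x]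
  · rw [if_neg h, if_neg (fun h' => h (e2.1 h'))]

theorem cent_anti (S T : Subgroup G) (h : T ≤ S) :
    Subgroup.centralizer (S : Set G) ≤ Subgroup.centralizer (T : Set G) :=
  Subgroup.centralizer_le h

theorem norm_inf (S L : Subgroup G) (k : G) (h1 : k ∈ Subgroup.normalizer (S : Set G))
    (h2 : k ∈ Subgroup.normalizer (L : Set G)) :
    k ∈ Subgroup.normalizer ((S ⊓ L : Subgroup G) : Set G) := by
  rw [Subgroup.mem_normalizer_iff] at h1 h2 ⊢
  intro x
  have e1 := h1 x
  have e2 := h2 x
  constructor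
  · intro hx
    have hx' := Subgroup.mem_inf.1 hx
    exact Subgroup.mem_inf.2 ⟨e1.1 hx'.1, e2.1 hx'.2⟩
  · intro hx
    have hx' := Subgroup.mem_inf.1 hx
    exact Subgroup.mem_inf.2 ⟨e1.2 hx'.1, e2.2 hx'.2⟩

/-- Passing from the centraliser of `T` to the centraliser of `S`. -/
theorem step [Finite G] (H L S : Subgroup G) (hHL : H ≤ L) (hSL : S ≤ L) (hS : IsPGroup p S)
    (hHS : H ≤ Subgroup.normalizer (S : Set G))
    (B : (H → F) → F) (hB : IsBlock B) (f : G → F) (hf : IsClassFun f) :
    ∀ (n : ℕ) (T : Subgroup G), T ≤ S → H ≤ Subgroup.normalizer (T : Set G) →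
      L ⊓ Subgroup.centralizer (T : Set G) ≤ H → Nat.card S - Nat.card T ≤ n →
      B (fun x : H => cut f (L ⊓ Subgroup.centralizer (T : Set G)) x) =
        B (fun x : H => cut f (L ⊓ Subgroup.centralizer (S : Set G)) x) := by
  intro n
  induction n with
  | zero =>
    intro T hTS hHT hLT hcard
    have e : T = S := Subgroup.eq_of_le_of_card_ge hTS (by omega)
    rw [e]
  | succ n ih =>
    intro T hTS hHT hLT hcard
    by_cases hTS' : T = S
    · rw [hTS']
    obtain ⟨T', hT'def⟩ : ∃ T' : Subgroup G, T' = S ⊓ Subgroup.normalizer (T : Set G) := ⟨_, rfl⟩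
    have hT'S : T' ≤ S := by
      rw [hT'def]
      exact inf_le_left
    have hT'N : T' ≤ Subgroup.normalizer (T : Set G) := by
      rw [hT'def]
      exact inf_le_right
    have hTT' : T ≤ T' := by
      rw [hT'def]
      exact le_inf hTS Subgroup.le_normalizer
    have hne : T ≠ T' := by
      intro heq
      have hSnil : Group.IsNilpotent S := hS.isNilpotent
      have hnc : NormalizerCondition S := Group.normalizerCondition_of_isNilpotent
      have hlt : T.subgroupOf S < ⊤ := by
        rw [lt_top_iff_ne_top]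
        intro htop
        apply hTS'
        apply le_antisymm hTS
        exact Subgroup.subgroupOf_eq_top.1 htop
      obtain ⟨hle, hnle⟩ := hnc _ hlt
      apply hnle
      intro x hx
      rw [Subgroup.mem_subgroupOf]
      rw [heq, hT'def]
      refine Subgroup.mem_inf.2 ⟨x.2, ?_⟩
      rw [Subgroup.mem_normalizer_iff]
      intro t
      rw [Subgroup.mem_normalizer_iff] at hx
      constructor
      · intro ht
        exact (hx ⟨t, hTS ht⟩).1 ht
      · intro ht
        have htS : t ∈ S := by
          have h1 := S.mul_mem (S.mul_mem (S.inv_mem x.2) (hTS ht)) x.2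
          have e : (x : G)⁻¹ * (x * t * (x : G)⁻¹) * x = t := by group
          rwa [e] at h1
        exact (hx ⟨t, htS⟩).2 ht
    have hHT' : H ≤ Subgroup.normalizer (T' : Set G) := by
      intro h hh
      rw [hT'def]
      exact norm_inf _ _ h (hHS hh) (Subgroup.le_normalizer (hHT hh))
    have hLT' : L ⊓ Subgroup.centralizer (T' : Set G) ≤ L ⊓ Subgroup.centralizer (T : Set G) :=
      inf_le_inf_left L (cent_anti _ _ hTT')
    have hcard' : Nat.card S - Nat.card T' ≤ n := by
      have h1 : Nat.card T < Nat.card T' := by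
        have h2 : Nat.card T ≤ Nat.card T' := Subgroup.card_le_of_le hTT'
        rcases Nat.lt_or_ge (Nat.card T) (Nat.card T') with h3 | h3
        · exact h3
        · exact absurd (Subgroup.eq_of_le_of_card_ge hTT' h3) hne
      have h4 : Nat.card T' ≤ Nat.card S := Subgroup.card_le_of_le hT'S
      omega
    have hih := ih T' hT'S hHT' (hLT'.trans hLT) hcard'
    rw [← hih]
    obtain ⟨g, hg⟩ : ∃ g : G → F, g = fun x => cut f (L ⊓ Subgroup.centralizer (T : Set G)) x -
      cut f (L ⊓ Subgroup.centralizer (T' : Set G)) x := ⟨_, rfl⟩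
    have hgx : ∀ x, g x = cut f (L ⊓ Subgroup.centralizer (T : Set G)) x -
      cut f (L ⊓ Subgroup.centralizer (T' : Set G)) x := by
      intro x
      rw [hg]
    have hgH : ∀ h ∈ H, ∀ x, g (h * x * h⁻¹) = g x := by
      intro h hh x
      rw [hgx, hgx, cut_conj f hf L T h x (hHL hh) (hHT hh),
        cut_conj f hf L T' h x (hHL hh) (hHT' hh)]
    have hB0 : B (fun x : H => g x) = 0 := by
      refine lam_zero (p := p) H T' (hS.to_le hT'S) ?_ B hB g ?_ hgH ?_ ?_
      · intro h hh t ht
        exact (Subgroup.mem_normalizer_iff.1 (hHT' hh) t).1 ht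
      · intro x hx
        have h5 : x ∉ L ⊓ Subgroup.centralizer (T : Set G) := fun h => hx (hLT h)
        have h6 : x ∉ L ⊓ Subgroup.centralizer (T' : Set G) := fun h => h5 (hLT' h)
        rw [hgx]
        unfold cut
        rw [if_neg h5, if_neg h6, sub_zero]
      · intro t ht x
        rw [hgx, hgx, cut_conj f hf L T t x (hSL (hT'S ht)) (hT'N ht),
          cut_conj f hf L T' t x (hSL (hT'S ht)) (Subgroup.le_normalizer ht)]
      · intro x hx
        have h7 : x ∈ Subgroup.centralizer (T' : Set G) := by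
          rw [Subgroup.mem_centralizer_iff]
          exact hx
        have h8 := cent_anti _ _ hTT' h7
        rw [hgx]
        unfold cut
        by_cases hxL : x ∈ L
        · rw [if_pos (Subgroup.mem_inf.2 ⟨hxL, h8⟩), if_pos (Subgroup.mem_inf.2 ⟨hxL, h7⟩), sub_self]
        · rw [if_neg (fun h => hxL (Subgroup.mem_inf.1 h).1),
            if_neg (fun h => hxL (Subgroup.mem_inf.1 h).1), sub_self]
    have hsum : (fun x : H => cut f (L ⊓ Subgroup.centralizer (T : Set G)) x) =
        (fun x : H => g x) + (fun x : H => cut f (L ⊓ Subgroup.centralizer (T' : Set G)) x) := by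
      funext x
      show _ = g x + cut f (L ⊓ Subgroup.centralizer (T' : Set G)) x
      rw [hgx, sub_add_cancel]
    rw [hsum, hB.add _ _ (fun a x => hgH a a.2 x)
      (fun a x => cut_conj f hf L T' a x (hHL a.2) (hHT' a.2)), hB0, zero_add]

theorem mem_stab (σ : Set (Subgroup G)) (x : G) :
    x ∈ chainStabilizer σ ↔ ∀ Q ∈ σ, x ∈ Subgroup.normalizer (Q : Set G) := by
  unfold chainStabilizer
  simp only [Subgroup.mem_iInf]

theorem stab_anti (σ τ : Set (Subgroup G)) (h : τ ⊆ σ) : chainStabilizer σ ≤ chainStabilizer τ := by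
  intro x hx
  rw [mem_stab] at hx ⊢
  exact fun Q hQ => hx Q (h hQ)

/-- The values of a block of the stabiliser of a chain only depend on the values of the class
function on the centraliser of the largest member. -/
theorem main1 [Finite G] (σ : Set (Subgroup G)) (hσ : IsChain (· ≤ ·) σ) (P : Subgroup G)
    (hP : IsPGroup p P) (hσP : ∀ Q ∈ σ, Q ≤ P)
    (hHP : chainStabilizer σ ≤ Subgroup.normalizer (P : Set G))
    (B : (chainStabilizer σ → F) → F) (hB : IsBlock B) (f : G → F) (hf : IsClassFun f) :
    ∀ (n : ℕ) (τ : Set (Subgroup G)), τ ⊆ σ → (∀ Q ∈ σ, Q ∉ τ → ∀ R ∈ τ, Q ≤ R) →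
      (σ \ τ).ncard = n →
      chainStabilizer τ ⊓ Subgroup.centralizer ((P ⊓ chainStabilizer τ : Subgroup G) : Set G) ≤
        chainStabilizer σ ∧
      B (fun x => f x) = B (fun x => cut f (chainStabilizer τ ⊓
        Subgroup.centralizer ((P ⊓ chainStabilizer τ : Subgroup G) : Set G)) x) := by
  have hnormS : ∀ L : Subgroup G, chainStabilizer σ ≤ L →
      chainStabilizer σ ≤ Subgroup.normalizer ((P ⊓ L : Subgroup G) : Set G) := by
    intro L hL h hh
    exact norm_inf _ _ h (hHP hh) (Subgroup.le_normalizer (hL hh))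
  intro n
  induction n with
  | zero =>
    intro τ hτ _ hcard
    have hfin : (σ \ τ).Finite := Set.toFinite _
    have hemp : σ \ τ = ∅ := (Set.ncard_eq_zero hfin).1 hcard
    have hτσ : τ = σ := Set.Subset.antisymm hτ (Set.diff_eq_empty.1 hemp)
    rw [hτσ]
    refine ⟨inf_le_left, ?_⟩
    have hst := step (p := p) (chainStabilizer σ) (chainStabilizer σ) (P ⊓ chainStabilizer σ)
      le_rfl inf_le_right (hP.to_le inf_le_left) (hnormS _ le_rfl) B hB f hf _ ⊥ bot_le
      (by
        intro h _
        rw [Subgroup.mem_normalizer_iff]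
        intro x
        constructor
        · intro hx
          have hx1 : x = 1 := Subgroup.mem_bot.1 hx
          rw [hx1]
          have e : h * 1 * h⁻¹ = 1 := by group
          rw [e]
          exact Subgroup.one_mem _
        · intro hx
          have hx1 : h * x * h⁻¹ = 1 := Subgroup.mem_bot.1 hx
          have hx2 : x = 1 := conj_eq_one_iff.1 hx1
          rw [hx2]
          exact Subgroup.one_mem _)
      inf_le_left le_rfl
    rw [← hst]
    congr 1
    funext x
    unfold cut
    rw [if_pos]
    refine Subgroup.mem_inf.2 ⟨x.2, ?_⟩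
    rw [Subgroup.mem_centralizer_iff]
    intro q hq
    have hq1 : q = 1 := Subgroup.mem_bot.1 hq
    rw [hq1, one_mul, mul_one]
  | succ n ih =>
    intro τ hτ hup hcard
    have hfin : (σ \ τ).Finite := Set.toFinite _
    have hne : (σ \ τ).Nonempty := by
      rw [Set.nonempty_iff_ne_empty]
      intro h
      rw [h, Set.ncard_empty] at hcard
      omega
    obtain ⟨Q, hQmax⟩ := hfin.exists_maximal hne
    have hQσ : Q ∈ σ := hQmax.prop.1
    have hQτ : Q ∉ τ := hQmax.prop.2
    obtain ⟨τ1, hτ1⟩ : ∃ τ1 : Set (Subgroup G), τ1 = insert Q τ := ⟨_, rfl⟩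
    have hτ1σ : τ1 ⊆ σ := by
      rw [hτ1]
      exact Set.insert_subset hQσ hτ
    have hup1 : ∀ Q' ∈ σ, Q' ∉ τ1 → ∀ R ∈ τ1, Q' ≤ R := by
      intro Q' hQ' hQ'1 R hR
      have hQ'τ : Q' ∉ τ := by
        intro h
        apply hQ'1
        rw [hτ1]
        exact Set.mem_insert_of_mem _ h
      have hQ'Q : Q' ≠ Q := by
        intro h
        apply hQ'1
        rw [hτ1, h]
        exact Set.mem_insert _ _
      rw [hτ1] at hR
      rcases Set.mem_insert_iff.1 hR with h | h
      · rw [h]
        rcases hσ hQ' hQσ hQ'Q with h1 | h1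
        · exact h1
        · exact hQmax.le_of_ge ⟨hQ', hQ'τ⟩ h1
      · exact hup Q' hQ' hQ'τ R h
    have hcard1 : (σ \ τ1).ncard = n := by
      have e : σ \ τ1 = (σ \ τ) \ {Q} := by
        rw [hτ1]
        ext R
        simp only [Set.mem_diff, Set.mem_insert_iff, Set.mem_singleton_iff, not_or]
        tauto
      rw [e, Set.ncard_diff_singleton_of_mem (show Q ∈ σ \ τ from ⟨hQσ, hQτ⟩), hcard]
      rfl
    obtain ⟨hle1, heq1⟩ := ih τ1 hτ1σ hup1 hcard1
    have hL1 : chainStabilizer τ1 ≤ chainStabilizer τ := by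
      apply stab_anti
      rw [hτ1]
      exact Set.subset_insert _ _
    have hQS : Q ≤ P ⊓ chainStabilizer τ1 := by
      refine le_inf (hσP Q hQσ) ?_
      intro x hx
      rw [mem_stab]
      intro R hR
      rw [hτ1] at hR
      rcases Set.mem_insert_iff.1 hR with h | h
      · rw [h]
        exact Subgroup.le_normalizer hx
      · exact Subgroup.le_normalizer (hup Q hQσ hQτ R h hx)
    have hLC : chainStabilizer τ ⊓
        Subgroup.centralizer ((P ⊓ chainStabilizer τ1 : Subgroup G) : Set G) =
        chainStabilizer τ1 ⊓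
        Subgroup.centralizer ((P ⊓ chainStabilizer τ1 : Subgroup G) : Set G) := by
      apply le_antisymm
      · intro x hx
        have hx1 := (Subgroup.mem_inf.1 hx).1
        have hx2 := (Subgroup.mem_inf.1 hx).2
        refine Subgroup.mem_inf.2 ⟨?_, hx2⟩
        rw [mem_stab]
        intro R hR
        rw [hτ1] at hR
        rcases Set.mem_insert_iff.1 hR with h | h
        · rw [h]
          rw [Subgroup.mem_centralizer_iff] at hx2
          have hc : ∀ q ∈ Q, x * q * x⁻¹ = q := by
            intro q hq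
            rw [← hx2 q (hQS hq), mul_inv_cancel_right]
          rw [Subgroup.mem_normalizer_iff]
          intro q
          constructor
          · intro hq
            rw [hc q hq]
            exact hq
          · intro hq
            have h4 := hc _ hq
            have h5 : x * (x * q * x⁻¹) * x⁻¹ = x * q * x⁻¹ := h4
            have h6 : x * q * x⁻¹ = q := by
              have h7 := mul_left_cancel (mul_right_cancel h5)
              exact h7
            rw [← h6]
            exact hq
        · exact (mem_stab τ x).1 hx1 R h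
      · exact inf_le_inf_right _ hL1
    have hHL : chainStabilizer σ ≤ chainStabilizer τ := stab_anti _ _ hτ
    have hHL1 : chainStabilizer σ ≤ chainStabilizer τ1 := stab_anti _ _ hτ1σ
    have hSS : P ⊓ chainStabilizer τ1 ≤ P ⊓ chainStabilizer τ := inf_le_inf_left P hL1
    have hLCH : chainStabilizer τ ⊓
        Subgroup.centralizer ((P ⊓ chainStabilizer τ1 : Subgroup G) : Set G) ≤
        chainStabilizer σ := by
      rw [hLC]
      exact hle1
    have hst := step (p := p) (chainStabilizer σ) (chainStabilizer τ) (P ⊓ chainStabilizer τ)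
      hHL inf_le_right (hP.to_le inf_le_left) (hnormS _ hHL) B hB f hf _
      (P ⊓ chainStabilizer τ1) hSS (hnormS _ hHL1) hLCH le_rfl
    refine ⟨(inf_le_inf_left _ (cent_anti _ _ hSS)).trans hLCH, ?_⟩
    rw [heq1, ← hst, hLC]

end fix

theorem conv_class {F : Type} [Field F] {G : Type} [Group G] [Fintype G] (f g : G → F)
    (hf : IsClassFun f) (hg : IsClassFun g) : IsClassFun (conv f g) := by
  intro h x
  rw [conv_eq, conv_eq]
  refine Fintype.sum_equiv (MulAut.conj h⁻¹).toEquiv _ _ fun y => ?_
  have e1 : (MulAut.conj h⁻¹).toEquiv y = h⁻¹ * y * h := by simp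
  rw [e1]
  have e2 : f (h⁻¹ * y * h) = f y := by
    have h3 := hf h⁻¹ y
    rwa [inv_inv] at h3
  have e3 : g ((h⁻¹ * y * h)⁻¹ * x) = g (y⁻¹ * (h * x * h⁻¹)) := by
    rw [← hg h ((h⁻¹ * y * h)⁻¹ * x)]
    congr 1
    group
  rw [e2, e3]

/-- The restriction to the centraliser of a `p`-subgroup is multiplicative on class functions. -/
theorem conv_cut {p : ℕ} [Fact p.Prime] {F : Type} [Field F] [CharP F p] {G : Type} [Group G]
    [Fintype G] (H P : Subgroup G) (hP : IsPGroup p P)
    (hCH : Subgroup.centralizer (P : Set G) ≤ H) (f g : G → F) (hf : IsClassFun f)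
    (hg : IsClassFun g) :
    conv (fun x : H => cut f (Subgroup.centralizer (P : Set G)) x)
      (fun x : H => cut g (Subgroup.centralizer (P : Set G)) x) =
      fun x : H => cut (conv f g) (Subgroup.centralizer (P : Set G)) x := by
  have hfH : Fintype H := Fintype.ofFinite H
  funext x
  rw [conv_eq]
  by_cases hx : (x : G) ∈ Subgroup.centralizer (P : Set G)
  · have hR : cut (conv f g) (Subgroup.centralizer (P : Set G)) (x : G) =
        ∑ y : G, f y * g (y⁻¹ * x) := by
      unfold cut
      rw [if_pos hx, conv_eq]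
    rw [hR]
    let _ : MulAction P G := MulAction.compHom G (MulAut.conj.comp P.subtype)
    have hact : ∀ (q : P) (y : G), q • y = (q : G) * y * (q : G)⁻¹ := fun q y => rfl
    have hxq : ∀ q ∈ P, q * (x : G) = x * q := Subgroup.mem_centralizer_iff.1 hx
    rw [B930.sum_fixed (p := p) (Q := P) (Y := G) hP (fun y => f y * g (y⁻¹ * x)) (by
      intro q y
      rw [hact]
      have e1 : g (((q : G) * y * (q : G)⁻¹)⁻¹ * x) = g (y⁻¹ * x) := by
        have e2 : ((q : G) * y * (q : G)⁻¹)⁻¹ * x = (q : G) * (y⁻¹ * x) * (q : G)⁻¹ := by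
          have e3 : (q : G)⁻¹ * (x : G) = x * (q : G)⁻¹ := hxq (q : G)⁻¹ (P.inv_mem q.2)
          rw [mul_inv_rev, mul_inv_rev, inv_inv, mul_assoc, mul_assoc, mul_assoc, mul_assoc, e3]
        rw [e2, hg]
      rw [e1, hf])]
    have key : ∀ y : H, cut f (Subgroup.centralizer (P : Set G)) y *
        cut g (Subgroup.centralizer (P : Set G)) ((y⁻¹ * x : H) : G) =
        if (y : G) ∈ Subgroup.centralizer (P : Set G) then f y * g ((y : G)⁻¹ * x) else 0 := by
      intro y
      unfold cut
      by_cases hy : (y : G) ∈ Subgroup.centralizer (P : Set G)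
      · have hyx : ((y⁻¹ * x : H) : G) ∈ Subgroup.centralizer (P : Set G) := by
          rw [Subgroup.coe_mul, Subgroup.coe_inv]
          exact Subgroup.mul_mem _ (Subgroup.inv_mem _ hy) hx
        rw [if_pos hy, if_pos hy, if_pos hyx]
        rfl
      · rw [if_neg hy, if_neg hy, zero_mul]
    rw [Finset.sum_congr rfl (fun y _ => key y), ← Finset.sum_filter]
    refine Finset.sum_bij (fun y _ => (y : G)) ?_ ?_ ?_ ?_
    · intro y hy
      have hy2 := (Finset.mem_filter.1 hy).2
      refine (B930.mem_fx _).2 fun q => ?_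
      rw [hact, Subgroup.mem_centralizer_iff.1 hy2 q q.2, mul_inv_cancel_right]
    · intro a _ b _ hab
      exact Subtype.ext hab
    · intro b hb
      have hb2 := (B930.mem_fx _).1 hb
      have hbC : b ∈ Subgroup.centralizer (P : Set G) := by
        rw [Subgroup.mem_centralizer_iff]
        intro q hq
        have h3 := hb2 ⟨q, hq⟩
        rw [hact] at h3
        exact mul_inv_eq_iff_eq_mul.1 h3
      exact ⟨⟨b, hCH hbC⟩, Finset.mem_filter.2 ⟨Finset.mem_univ _, hbC⟩, rfl⟩
    · intro a _
      rfl
  · have hR : cut (conv f g) (Subgroup.centralizer (P : Set G)) (x : G) = 0 := by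
      unfold cut
      rw [if_neg hx]
    rw [hR]
    apply Finset.sum_eq_zero
    intro y _
    unfold cut
    by_cases hy : (y : G) ∈ Subgroup.centralizer (P : Set G)
    · by_cases hyx : ((y⁻¹ * x : H) : G) ∈ Subgroup.centralizer (P : Set G)
      · exfalso
        apply hx
        have h3 := Subgroup.mul_mem _ hy hyx
        rw [Subgroup.coe_mul, Subgroup.coe_inv, mul_inv_cancel_left] at h3
        exact h3
      · rw [if_neg hyx, mul_zero]
    · rw [if_neg hy, zero_mul]

/-- `bl(χ)^G` is defined for the irreducible characters `χ` of the stabiliser of a chain. -/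
theorem kblk : S_KBLK := by
  intro p _ F _ _ _ red G _ _ σ χ hσ hχ
  have hfG : Fintype G := Fintype.ofFinite G
  have hB := Pool.Agent.Y930.NV.cvh F red (chainStabilizer σ) χ hχ
  obtain ⟨P, hP, hσP, hHP⟩ : ∃ P : Subgroup G, IsPGroup p P ∧ (∀ Q ∈ σ, Q ≤ P) ∧
      chainStabilizer σ ≤ Subgroup.normalizer (P : Set G) := by
    by_cases hne : σ.Nonempty
    · obtain ⟨P, hPmax⟩ := (Set.toFinite σ).exists_maximal hne
      refine ⟨P, hσ.isPGroup P hPmax.prop, ?_, ?_⟩
      · intro Q hQ
        by_cases hQP : Q = P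
        · rw [hQP]
        · rcases hσ.chain hQ hPmax.prop hQP with h | h
          · exact h
          · exact hPmax.le_of_ge hQ h
      · intro x hx
        exact (mem_stab σ x).1 hx P hPmax.prop
    · rw [Set.not_nonempty_iff_eq_empty] at hne
      refine ⟨⊥, IsPGroup.of_bot, ?_, ?_⟩
      · intro Q hQ
        rw [hne] at hQ
        exact absurd hQ (Set.notMem_empty Q)
      · intro x _
        rw [Subgroup.mem_normalizer_iff]
        intro y
        constructor
        · intro hy
          have hy1 : y = 1 := Subgroup.mem_bot.1 hy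
          rw [hy1]
          have e : x * 1 * x⁻¹ = 1 := by group
          rw [e]
          exact Subgroup.one_mem _
        · intro hy
          have hy1 : x * y * x⁻¹ = 1 := Subgroup.mem_bot.1 hy
          have hy2 : y = 1 := conj_eq_one_iff.1 hy1
          rw [hy2]
          exact Subgroup.one_mem _
  have hst : chainStabilizer (∅ : Set (Subgroup G)) = ⊤ := by
    rw [eq_top_iff]
    intro x _
    rw [mem_stab]
    intro Q hQ
    exact absurd hQ (Set.notMem_empty Q)
  have hmain : ∀ f : G → F, IsClassFun f →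
      Subgroup.centralizer (P : Set G) ≤ chainStabilizer σ ∧
      centralValue red χ (fun x => f x) =
        centralValue red χ (fun x => cut f (Subgroup.centralizer (P : Set G)) x) := by
    intro f hf
    have h := main1 (p := p) σ hσ.chain P hP hσP hHP (centralValue red χ) hB f hf _ ∅
      (Set.empty_subset σ) (fun Q _ _ R hR => absurd hR (Set.notMem_empty R)) rfl
    rw [hst, inf_top_eq, top_inf_eq] at h
    exact h
  have hres : ∀ f : G → F, IsClassFun f → IsClassFun (fun x : chainStabilizer σ => f x) := by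
    intro f hf g x
    exact hf g x
  have hcut : ∀ f : G → F, IsClassFun f →
      IsClassFun (fun x : chainStabilizer σ => cut f (Subgroup.centralizer (P : Set G)) x) := by
    intro f hf g x
    have h := cut_conj f hf ⊤ P (g : G) (x : G) (Subgroup.mem_top _) (hHP g.2)
    rw [top_inf_eq] at h
    exact h
  refine ⟨?_, ?_, ?_, ?_⟩
  · intro f g hf hg
    exact hB.add (fun x : chainStabilizer σ => f x) (fun x : chainStabilizer σ => g x)
      (hres f hf) (hres g hg)
  · intro a f hf
    exact hB.smul a (fun x : chainStabilizer σ => f x) (hres f hf)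
  · show centralValue red χ (fun x : chainStabilizer σ => (Pi.single (1 : G) (1 : F) : G → F) x) = 1
    refine Eq.trans (congrArg (centralValue red χ) ?_) hB.one
    funext x
    unfold Pi.single Function.update
    by_cases hx : x = 1
    · subst hx
      simp
    · have hx' : ¬ (x : G) = 1 := by
        intro h
        exact hx (Subtype.ext h)
      rw [dif_neg hx', dif_neg hx]
      rfl
  · intro f g hf hg
    obtain ⟨hCH, hvf⟩ := hmain f hf
    obtain ⟨_, hvg⟩ := hmain g hg
    obtain ⟨_, hvfg⟩ := hmain (conv f g) (conv_class f g hf hg)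
    show centralValue red χ (fun x : chainStabilizer σ => conv f g x) =
      centralValue red χ (fun x : chainStabilizer σ => f x) *
        centralValue red χ (fun x : chainStabilizer σ => g x)
    rw [hvfg, hvf, hvg, ← hB.mul _ _ (hcut f hf) (hcut g hg),
      conv_cut (p := p) (chainStabilizer σ) P hP hCH f g hf hg]

end Pool.Agent.Y657.NV
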