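import Pool.Agent.Y63.NV.Stm2
import Pool.Agent.Y63.NV.Infl
import Pool.Agent.Y63.AWC.Z1
import Pool.Agent.Y930.NV.Cen

/-!
# Products of class functions of defect zero, reduced modulo `p`

Tools for the part DGN1 (Brauer quotient of the projective centre).
-/

set_option autoImplicit false
set_option linter.unusedSectionVars false

open scoped Classical

noncomputable section

namespace Pool.Agent.Y657.NV

open Pool.Agent.Y63.AWC (IsIrreducibleCharacter DZ deg_nat deg_dvd isIntegral_char col_orth)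
open Pool.Agent.Y63.NV
open Pool.Agent.Y930.NV (redC_of redC_add redC_mul redC_zero redC_one int_intCast redC_intCast
  redC_sum Cf ind mk_conj Cf_ind mk_out Cf_out Cf_expand ind_out cv cv_eq_conv Cf_cv om irr_one_ne
  om_mul om_sum om_int om_ind irr_Cf R ind_cast)
open Pool.Agent.Helper884.IC (Irr mem_Irr IsIrrChar)

section J

variable {J : Type} [Group J] [Fintype J]

/-- the order of the centralizer -/
def cc (x : J) : ℕ := Nat.card (Subgroup.centralizer ({x} : Set J))

theorem card_cc (x : J) : Nat.card (ConjClasses.mk x).carrier * cc x = Nat.card J := by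
  have h1 : Nat.card (ConjClasses.mk x).carrier = Nat.card (MulAction.orbit (ConjAct J) x) := by
    rw [ConjAct.orbit_eq_carrier_conjClasses]
  have h2 : cc x = Nat.card (MulAction.stabilizer (ConjAct J) x) :=
    Subgroup.nat_card_centralizer_nat_card_stabilizer x
  rw [h1, h2]
  have h3 := MulAction.card_orbit_mul_card_stabilizer_eq_card_group (ConjAct J) x
  rw [← Nat.card_eq_fintype_card, ← Nat.card_eq_fintype_card, ← Nat.card_eq_fintype_card] at h3
  rw [h3]
  rfl

/-- the quotient of the order by the degree -/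
def mm (χ : J → ℂ) : ℂ := (Nat.card J : ℂ) / χ 1

theorem cardJ_ne : (Nat.card J : ℂ) ≠ 0 := by
  exact_mod_cast Nat.card_pos.ne'

theorem mm_nat {χ : J → ℂ} (h : IsIrreducibleCharacter χ) :
    ∃ m : ℕ, mm χ = m ∧ ∀ p : ℕ, p.Prime → (¬ p ∣ m ↔ DZ p χ) := by
  obtain ⟨n, hn0, hn⟩ := deg_nat h
  obtain ⟨m, hm⟩ := deg_dvd h hn
  have hn0' : (n : ℂ) ≠ 0 := by exact_mod_cast hn0.ne'
  have hm0 : m ≠ 0 := by
    rintro rfl
    rw [mul_zero] at hm
    exact Nat.card_pos.ne' hm
  refine ⟨m, ?_, fun p hp => ?_⟩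
  · unfold mm
    rw [hn, hm]
    push_cast
    field_simp
  · have hf : (Nat.card J).factorization p = n.factorization p + m.factorization p := by
      rw [hm, Nat.factorization_mul hn0.ne' hm0]
      rfl
    have h0 : ¬ p ∣ m ↔ m.factorization p = 0 := by
      rw [Nat.factorization_eq_zero_iff]
      constructor
      · intro h
        exact Or.inr (Or.inl h)
      · rintro (h | h | h)
        · exact absurd hp h
        · exact h
        · exact absurd h hm0
    rw [h0]
    constructor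
    · intro h
      exact ⟨n, hn, by omega⟩
    · rintro ⟨n', hn', h'⟩
      have : n' = n := by
        have h1 : (n' : ℂ) = n := by rw [← hn', hn]
        exact_mod_cast h1
      subst this
      omega

theorem mm_mul {χ : J → ℂ} (h : IsIrreducibleCharacter χ) : χ 1 * mm χ = (Nat.card J : ℂ) := by
  unfold mm
  exact mul_div_cancel₀ _ (irr_one_ne h)

theorem mm_int {χ : J → ℂ} (h : IsIrreducibleCharacter χ) : IsIntegral ℤ (mm χ) := by
  obtain ⟨m, hm, -⟩ := mm_nat h
  rw [hm]
  exact_mod_cast int_intCast (m : ℤ)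

/-- the relation between the central character and the values -/
theorem cc_om {χ : J → ℂ} (h : IsIrreducibleCharacter χ) (x : J) :
    (cc x : ℂ) * om χ (ind ℂ (ConjClasses.mk x)) = mm χ * χ x := by
  rw [om_ind χ (irr_Cf h), Cf_out (irr_Cf h) rfl]
  unfold mm
  have h1 : (Nat.card J : ℂ) = (Nat.card (ConjClasses.mk x).carrier : ℂ) * cc x := by
    rw [← card_cc x]
    push_cast
    rfl
  rw [h1]
  ring

/-- the expansion of a class function -/
theorem expand_cf (θ : J → ℂ) (hθ : Cf θ) (g : J) :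
    ∑ χ ∈ Irr J, χ 1 * om χ θ * χ g⁻¹ = (Nat.card J : ℂ) * θ g := by
  have h1 : ∀ χ ∈ Irr J, χ 1 * om χ θ * χ g⁻¹ = ∑ a : J, θ a * (χ a * χ g⁻¹) := by
    intro χ hχ
    have hi : IsIrreducibleCharacter χ := mem_Irr.mp hχ
    unfold om
    rw [mul_div_cancel₀ _ (irr_one_ne hi), Finset.sum_mul]
    exact Finset.sum_congr rfl fun a _ => by ring
  rw [Finset.sum_congr rfl h1, Finset.sum_comm]
  have h2 : ∀ a : J, ∑ χ ∈ Irr J, θ a * (χ a * χ g⁻¹) =
      ∑ n : J, if n * a * n⁻¹ = g then θ a else 0 := by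
    intro a
    rw [← Finset.mul_sum, col_orth, ← Finset.sum_filter, Finset.sum_const, nsmul_eq_mul,
      Nat.card_eq_fintype_card, Fintype.card_subtype]
    ring
  rw [Finset.sum_congr rfl fun a _ => h2 a, Finset.sum_comm]
  have h3 : ∀ n : J, ∑ a : J, (if n * a * n⁻¹ = g then θ a else 0) = θ g := by
    intro n
    rw [Finset.sum_eq_single (n⁻¹ * g * n)]
    · have e : n * (n⁻¹ * g * n) * n⁻¹ = g := by group
      rw [if_pos e]
      have := hθ n⁻¹ g
      simpa using this
    · intro b _ hb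
      rw [if_neg]
      intro h
      apply hb
      rw [← h]
      group
    · intro h
      exact absurd (Finset.mem_univ _) h
  rw [Finset.sum_congr rfl fun n _ => h3 n, Finset.sum_const, nsmul_eq_mul, Finset.card_univ,
    Nat.card_eq_fintype_card]

/-- Frobenius' formula -/
theorem frob (x y g : J) : (cc x : ℂ) * cc y *
    cv (ind ℂ (ConjClasses.mk x)) (ind ℂ (ConjClasses.mk y)) g =
      ∑ χ ∈ Irr J, mm χ * χ x * χ y * χ g⁻¹ := by
  have h1 := expand_cf _ (Cf_cv (Cf_ind ℂ (ConjClasses.mk x)) (Cf_ind ℂ (ConjClasses.mk y))) g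
  apply mul_left_cancel₀ (cardJ_ne (J := J))
  rw [Finset.mul_sum]
  calc (Nat.card J : ℂ) * ((cc x : ℂ) * cc y *
        cv (ind ℂ (ConjClasses.mk x)) (ind ℂ (ConjClasses.mk y)) g)
      = (cc x : ℂ) * cc y * ((Nat.card J : ℂ) *
        cv (ind ℂ (ConjClasses.mk x)) (ind ℂ (ConjClasses.mk y)) g) := by ring
    _ = ∑ χ ∈ Irr J, (Nat.card J : ℂ) * (mm χ * χ x * χ y * χ g⁻¹) := by
      rw [← h1, Finset.mul_sum]
      refine Finset.sum_congr rfl fun χ hχ => ?_
      have hi : IsIrreducibleCharacter χ := mem_Irr.mp hχ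
      rw [om_mul hi (Cf_ind _ _) (Cf_ind _ _)]
      calc (cc x : ℂ) * cc y * (χ 1 * (om χ (ind ℂ (ConjClasses.mk x)) *
            om χ (ind ℂ (ConjClasses.mk y))) * χ g⁻¹)
          = χ 1 * ((cc x : ℂ) * om χ (ind ℂ (ConjClasses.mk x))) *
            ((cc y : ℂ) * om χ (ind ℂ (ConjClasses.mk y))) * χ g⁻¹ := by ring
        _ = χ 1 * (mm χ * χ x) * (mm χ * χ y) * χ g⁻¹ := by rw [cc_om hi, cc_om hi]
        _ = (χ 1 * mm χ) * (mm χ * χ x * χ y * χ g⁻¹) := by ring
        _ = _ := by rw [mm_mul hi]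

/-! ### reduction -/

variable {F : Type} [Field F] (red : integralClosure ℤ ℂ →+* F)

/-- the reduction of `|J| / χ(1)` -/
def mF (χ : J → ℂ) : F := redC red (mm χ)

/-- the reduction of a value -/
def rr (χ : J → ℂ) (x : J) : F := redC red (χ x)

theorem redC_natCast (n : ℕ) : redC red (n : ℂ) = (n : F) := by
  have := redC_intCast red (n : ℤ)
  simpa using this

theorem int_natCast (n : ℕ) : IsIntegral ℤ (n : ℂ) := by
  exact_mod_cast int_intCast (n : ℤ)

theorem mF_ne {p : ℕ} [hp : Fact p.Prime] [CharP F p] {χ : J → ℂ} (h : IsIrreducibleCharacter χ)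
    (hd : DZ p χ) : mF red χ ≠ 0 := by
  obtain ⟨m, hm, hm2⟩ := mm_nat h
  unfold mF
  rw [hm, redC_natCast]
  intro h0
  exact (hm2 p hp.out).mpr hd ((CharP.cast_eq_zero_iff F p m).mp h0)

theorem mF_zero {p : ℕ} [hp : Fact p.Prime] [CharP F p] {χ : J → ℂ}
    (h : IsIrreducibleCharacter χ) (hd : ¬ DZ p χ) : mF red χ = 0 := by
  obtain ⟨m, hm, hm2⟩ := mm_nat h
  unfold mF
  rw [hm, redC_natCast, CharP.cast_eq_zero_iff F p m]
  by_contra h0
  exact hd ((hm2 p hp.out).mp h0)

theorem R_def {χ : J → ℂ} (C : ConjClasses J) : R red χ (ind ℤ C) = redC red (om χ (ind ℂ C)) := by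
  unfold R
  rw [ind_cast]

theorem om_ind_int {χ : J → ℂ} (h : IsIrreducibleCharacter χ) (C : ConjClasses J) :
    IsIntegral ℤ (om χ (ind ℂ C)) := by
  rw [← ind_cast]
  exact om_int h (Cf_ind ℤ C)

theorem ccR {χ : J → ℂ} (h : IsIrreducibleCharacter χ) (x : J) :
    (cc x : F) * R red χ (ind ℤ (ConjClasses.mk x)) = mF red χ * rr red χ x := by
  have h1 := congrArg (redC red) (cc_om h x)
  rw [redC_mul red (int_natCast _) (om_ind_int h _), redC_natCast,
    redC_mul red (mm_int h) (isIntegral_char h x)] at h1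
  rw [R_def]
  exact h1

/-- characters of defect zero vanish at the elements with a centralizer of order divisible by `p` -/
theorem rr_zero {p : ℕ} [hp : Fact p.Prime] [CharP F p] {χ : J → ℂ}
    (h : IsIrreducibleCharacter χ) (hd : DZ p χ) {x : J} (hx : p ∣ cc x) : rr red χ x = 0 := by
  have h1 := ccR red h x
  rw [(CharP.cast_eq_zero_iff F p _).mpr hx, zero_mul] at h1
  exact (mul_eq_zero.mp h1.symm).resolve_left (mF_ne red h hd)

theorem cc_inv (x : J) : cc x⁻¹ = cc x := by
  unfold cc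
  congr 2
  ext y
  rw [Subgroup.mem_centralizer_singleton_iff, Subgroup.mem_centralizer_singleton_iff]
  constructor
  · intro h
    have := congrArg (fun z => x * z * x) h
    simpa [mul_assoc] using this.symm
  · intro h
    have := congrArg (fun z => x⁻¹ * z * x⁻¹) h
    simpa [mul_assoc] using this.symm

theorem cc_conj (g x : J) : cc (g * x * g⁻¹) = cc x := by
  have h1 := card_cc (g * x * g⁻¹)
  rw [mk_conj, ← card_cc x] at h1
  have h2 : 0 < Nat.card (ConjClasses.mk x).carrier := by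
    rcases Nat.eq_zero_or_pos (Nat.card (ConjClasses.mk x).carrier) with h | h
    · exfalso
      have h3 := card_cc x
      rw [h, zero_mul] at h3
      exact Nat.card_pos.ne h3
    · exact h
  exact Nat.eq_of_mul_eq_mul_left h2 h1

theorem cc_of_mk {x y : J} (h : ConjClasses.mk x = ConjClasses.mk y) : cc x = cc y := by
  rw [ConjClasses.mk_eq_mk_iff_isConj, isConj_iff] at h
  obtain ⟨c, hc⟩ := h
  rw [← hc, cc_conj]

/-- the value of the central character at a class function with values in `F` -/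
def lam (χ : J → ℂ) (f : J → F) : F := ∑ C : ConjClasses J, f C.out * R red χ (ind ℤ C)

theorem cv_ind_cast (C D : ConjClasses J) (g : J) :
    (cv (ind ℂ C) (ind ℂ D) g : ℂ) = ((cv (ind ℤ C) (ind ℤ D) g : ℤ) : ℂ) := by
  unfold cv
  push_cast
  refine Finset.sum_congr rfl fun y _ => ?_
  rw [← ind_cast, ← ind_cast]

theorem cv_ind_castF (C D : ConjClasses J) (g : J) :
    (cv (ind F C) (ind F D) g : F) = ((cv (ind ℤ C) (ind ℤ D) g : ℤ) : F) := by
  unfold cv
  push_cast
  refine Finset.sum_congr rfl fun y _ => ?_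
  have e : ∀ (C : ConjClasses J) (z : J), ((ind ℤ C z : ℤ) : F) = ind F C z := by
    intro C z
    unfold ind
    split_ifs <;> simp
  rw [e, e]

theorem frobF (x y g : J) : (cc x : F) * cc y *
    cv (ind F (ConjClasses.mk x)) (ind F (ConjClasses.mk y)) g =
      ∑ χ ∈ Irr J, mF red χ * rr red χ x * rr red χ y * rr red χ g⁻¹ := by
  have h1 := congrArg (redC red) (frob x y g)
  rw [cv_ind_cast, redC_mul red ((int_natCast _).mul (int_natCast _)) (int_intCast _),
    redC_mul red (int_natCast _) (int_natCast _), redC_natCast, redC_natCast, redC_intCast,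
    ← cv_ind_castF, redC_sum red] at h1
  · rw [h1]
    refine Finset.sum_congr rfl fun χ hχ => ?_
    have hi : IsIrreducibleCharacter χ := mem_Irr.mp hχ
    have i1 := mm_int hi
    have i2 := isIntegral_char hi
    rw [redC_mul red ((i1.mul (i2 x)).mul (i2 y)) (i2 _), redC_mul red (i1.mul (i2 x)) (i2 y),
      redC_mul red i1 (i2 x)]
    rfl
  · intro χ hχ
    have hi : IsIrreducibleCharacter χ := mem_Irr.mp hχ
    exact (((mm_int hi).mul (isIntegral_char hi x)).mul (isIntegral_char hi y)).mul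
      (isIntegral_char hi _)

/-- **(A)** products of class functions of defect zero -/
theorem cv_dz {p : ℕ} [hp : Fact p.Prime] [CharP F p] {f h : J → F} (hf : Cf f) (hh : Cf h)
    (hf0 : ∀ x, p ∣ cc x → f x = 0) (hh0 : ∀ x, p ∣ cc x → h x = 0) (g : J) :
    cv f h g = ∑ χ ∈ (Irr J).filter (fun χ => DZ p χ),
      (mF red χ)⁻¹ * lam red χ f * lam red χ h * rr red χ g⁻¹ := by
  have h1 : cv f h g = ∑ C : ConjClasses J, ∑ D : ConjClasses J,
      f C.out * h D.out * cv (ind F C) (ind F D) g := by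
    unfold cv
    have h2 : ∀ y : J, f y * h (y⁻¹ * g) = ∑ C : ConjClasses J, ∑ D : ConjClasses J,
        f C.out * h D.out * (ind F C y * ind F D (y⁻¹ * g)) := by
      intro y
      rw [Cf_expand hf y, Cf_expand hh (y⁻¹ * g), Finset.sum_mul_sum]
      refine Finset.sum_congr rfl fun C _ => Finset.sum_congr rfl fun D _ => ?_
      ring
    simp_rw [h2]
    rw [Finset.sum_comm]
    refine Finset.sum_congr rfl fun C _ => ?_
    rw [Finset.sum_comm]
    refine Finset.sum_congr rfl fun D _ => ?_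
    rw [Finset.mul_sum]
  have h2 : ∀ C D : ConjClasses J, ¬ p ∣ cc C.out → ¬ p ∣ cc D.out →
      cv (ind F C) (ind F D) g = ∑ χ ∈ (Irr J).filter (fun χ => DZ p χ),
        (mF red χ)⁻¹ * R red χ (ind ℤ C) * R red χ (ind ℤ D) * rr red χ g⁻¹ := by
    intro C D hC hD
    have hC' : ((cc C.out : ℕ) : F) ≠ 0 := fun h0 => hC ((CharP.cast_eq_zero_iff F p _).mp h0)
    have hD' : ((cc D.out : ℕ) : F) ≠ 0 := fun h0 => hD ((CharP.cast_eq_zero_iff F p _).mp h0)
    apply mul_left_cancel₀ (mul_ne_zero hC' hD')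
    have h3 := frobF red C.out D.out g
    rw [mk_out, mk_out] at h3
    rw [h3, Finset.mul_sum]
    have h4 : ∑ χ ∈ Irr J, mF red χ * rr red χ C.out * rr red χ D.out * rr red χ g⁻¹ =
        ∑ χ ∈ (Irr J).filter (fun χ => DZ p χ),
          mF red χ * rr red χ C.out * rr red χ D.out * rr red χ g⁻¹ := by
      rw [Finset.sum_filter]
      refine Finset.sum_congr rfl fun χ hχ => ?_
      split_ifs with hd
      · rfl
      · rw [mF_zero red (p := p) (mem_Irr.mp hχ) hd]
        ring
    rw [h4]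
    refine Finset.sum_congr rfl fun χ hχ => ?_
    rw [Finset.mem_filter] at hχ
    have hi : IsIrreducibleCharacter χ := mem_Irr.mp hχ.1
    have hm := mF_ne red hi hχ.2
    have e1 := ccR red hi C.out
    have e2 := ccR red hi D.out
    rw [mk_out] at e1 e2
    calc mF red χ * rr red χ C.out * rr red χ D.out * rr red χ g⁻¹
        = (mF red χ)⁻¹ * (mF red χ * rr red χ C.out) * (mF red χ * rr red χ D.out) *
          rr red χ g⁻¹ := by
          field_simp
      _ = _ := by
          rw [← e1, ← e2]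
          ring
  rw [h1]
  have h3 : ∀ C D : ConjClasses J, f C.out * h D.out * cv (ind F C) (ind F D) g =
      ∑ χ ∈ (Irr J).filter (fun χ => DZ p χ), (mF red χ)⁻¹ * (f C.out * R red χ (ind ℤ C)) *
        (h D.out * R red χ (ind ℤ D)) * rr red χ g⁻¹ := by
    intro C D
    by_cases hC : p ∣ cc C.out
    · rw [hf0 _ hC, zero_mul, zero_mul]
      symm
      refine Finset.sum_eq_zero fun χ _ => ?_
      ring
    by_cases hD : p ∣ cc D.out
    · rw [hh0 _ hD, mul_zero, zero_mul]
      symm
      refine Finset.sum_eq_zero fun χ _ => ?_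
      ring
    rw [h2 C D hC hD, Finset.mul_sum]
    refine Finset.sum_congr rfl fun χ _ => ?_
    ring
  simp_rw [h3]
  have h4 : ∀ C : ConjClasses J, ∑ D : ConjClasses J,
      ∑ χ ∈ (Irr J).filter (fun χ => DZ p χ), (mF red χ)⁻¹ * (f C.out * R red χ (ind ℤ C)) *
        (h D.out * R red χ (ind ℤ D)) * rr red χ g⁻¹ =
      ∑ χ ∈ (Irr J).filter (fun χ => DZ p χ), (mF red χ)⁻¹ * (f C.out * R red χ (ind ℤ C)) *
        lam red χ h * rr red χ g⁻¹ := by
    intro C
    rw [Finset.sum_comm]
    refine Finset.sum_congr rfl fun χ _ => ?_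
    unfold lam
    rw [Finset.mul_sum, Finset.sum_mul]
  rw [Finset.sum_congr rfl fun C _ => h4 C, Finset.sum_comm]
  refine Finset.sum_congr rfl fun χ _ => ?_
  have e : lam red χ f = ∑ C : ConjClasses J, f C.out * R red χ (ind ℤ C) := rfl
  rw [e, Finset.mul_sum, Finset.sum_mul, Finset.sum_mul]

/-- **(B)** orthogonality -/
theorem lam_orth {χ ψ : J → ℂ} (h : IsIrreducibleCharacter χ) (h' : IsIrreducibleCharacter ψ) :
    lam red ψ (fun g => rr red χ g⁻¹) = if χ = ψ then mF red ψ else 0 := by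
  have hc : Cf (fun g => χ g⁻¹) := by
    intro g x
    have : (g * x * g⁻¹)⁻¹ = g * x⁻¹ * g⁻¹ := by group
    change χ (g * x * g⁻¹)⁻¹ = χ x⁻¹
    rw [this, irr_Cf h]
  have h1 : om ψ (fun g => χ g⁻¹) = if χ = ψ then mm ψ else 0 := by
    have h2 := Pool.Agent.Helper884.IC.B_irr (chi := ψ) (psi := χ) h' h
    unfold Pool.Agent.Helper884.IC.B at h2
    unfold om mm
    have h3 : ∑ g : J, χ g⁻¹ * ψ g = (Nat.card J : ℂ) * (if ψ = χ then 1 else 0) := by
      rw [← h2, mul_inv_cancel_left₀ (cardJ_ne (J := J))]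
      exact Finset.sum_congr rfl fun g _ => mul_comm _ _
    rw [h3]
    by_cases he : χ = ψ
    · rw [if_pos he, if_pos he.symm, mul_one]
    · rw [if_neg he, if_neg (fun h => he h.symm), mul_zero, zero_div]
  have h2 : om ψ (fun g => χ g⁻¹) = ∑ C : ConjClasses J, χ (C.out)⁻¹ * om ψ (ind ℂ C) := by
    have e : (fun g => χ g⁻¹) =
        fun g => ∑ C : ConjClasses J, χ (C.out)⁻¹ * (fun g => ind ℂ C g) g := by
      funext g
      exact Cf_expand hc g
    rw [e, om_sum ψ Finset.univ (fun C : ConjClasses J => χ (C.out)⁻¹)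
      (fun (C : ConjClasses J) (g : J) => ind ℂ C g)]
  rw [h2] at h1
  have h3 := congrArg (redC red) h1
  rw [redC_sum red _ _ (fun C _ => (isIntegral_char h _).mul (om_ind_int h' C))] at h3
  unfold lam
  have h4 : ∀ C : ConjClasses J, redC red (χ (C.out)⁻¹ * om ψ (ind ℂ C)) =
      rr red χ (C.out)⁻¹ * R red ψ (ind ℤ C) := by
    intro C
    rw [redC_mul red (isIntegral_char h _) (om_ind_int h' C), R_def]
    rfl
  rw [Finset.sum_congr rfl fun C _ => h4 C] at h3
  rw [h3]
  split_ifs
  · rfl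
  · exact redC_zero red

end J

end Pool.Agent.Y657.NV
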